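import Mathlib
import Pool.Agent.R122.BN.Defs

/-!
# Compressing sparse vectors in `ℓ₁` with a Reed-Solomon code
(helper122, MP_bd47c3_lc)
-/

namespace R122PT

open Finset

noncomputable def ev {q d : ℕ} (c : Fin d → ZMod q) (x : ZMod q) : ZMod q :=
  ∑ i, c i * x ^ (i : ℕ)

theorem agree {q d : ℕ} [Fact q.Prime] (c c' : Fin d → ZMod q) (h : c ≠ c') :
    (univ.filter (fun x => ev c x = ev c' x)).card ≤ d := by
  by_contra hcon
  apply h
  set p : Polynomial (ZMod q) :=
    ∑ i : Fin d, Polynomial.C (c i - c' i) * Polynomial.X ^ (i : ℕ) with hp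
  have hdeg : p.degree < (univ.filter (fun x => ev c x = ev c' x)).card := by
    refine lt_of_lt_of_le (Polynomial.degree_sum_fin_lt _) ?_
    exact_mod_cast (not_le.mp hcon).le
  have h0 : p = 0 := by
    apply Polynomial.eq_zero_of_degree_lt_of_eval_finset_eq_zero _ hdeg
    intro x hx
    simp only [mem_filter, mem_univ, true_and] at hx
    rw [hp, Polynomial.eval_finsetSum]
    simp only [Polynomial.eval_mul, Polynomial.eval_C, Polynomial.eval_pow, Polynomial.eval_X]
    unfold ev at hx
    simp only [sub_mul, Finset.sum_sub_distrib]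
    rw [hx, sub_self]
  funext i
  have h1 : p.coeff (i : ℕ) = c i - c' i := by
    rw [hp, Polynomial.finsetSum_coeff, Finset.sum_eq_single i]
    · rw [Polynomial.coeff_C_mul, Polynomial.coeff_X_pow, if_pos rfl, mul_one]
    · intro j _ hj
      rw [Polynomial.coeff_C_mul, Polynomial.coeff_X_pow, if_neg, mul_zero]
      intro hh
      exact hj (Fin.ext hh.symm)
    · simp
  rw [h0, Polynomial.coeff_zero] at h1
  exact sub_eq_zero.mp h1.symm

theorem bucket_lower {L Q : Type} [Fintype L] [DecidableEq L] [Fintype Q] [DecidableEq Q]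
    (D : L → ℝ) (S : Finset L) (hS : ∀ l, l ∉ S → D l = 0) (f : L → Q) (good : Finset L)
    (hgood : ∀ l ∈ good, ∀ l' ∈ S, f l' = f l → l' = l) (hgS : good ⊆ S) :
    ∑ l ∈ good, |D l| ≤ ∑ y, |∑ l, if f l = y then D l else 0| := by
  have h1 : ∑ l ∈ good, |D l| = ∑ y, ∑ l ∈ good, if f l = y then |D l| else 0 := by
    rw [Finset.sum_comm]
    apply Finset.sum_congr rfl
    intro l _
    rw [Finset.sum_ite_eq]
    simp
  rw [h1]
  apply Finset.sum_le_sum
  intro y _
  by_cases hy : ∃ l ∈ good, f l = y
  · obtain ⟨l, hl, hly⟩ := hy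
    have e1 : (∑ l' ∈ good, if f l' = y then |D l'| else 0) = |D l| := by
      rw [Finset.sum_eq_single l]
      · rw [if_pos hly]
      · intro l' hl' hne
        rw [if_neg]
        intro h
        exact hne (hgood l hl l' (hgS hl') (h.trans hly.symm))
      · intro h; exact absurd hl h
    have e2 : (∑ l', if f l' = y then D l' else 0) = D l := by
      rw [Finset.sum_eq_single l]
      · rw [if_pos hly]
      · intro l' _ hne
        split_ifs with h
        · apply hS
          intro hl'
          exact hne (hgood l hl l' hl' (h.trans hly.symm))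
        · rfl
      · intro h; exact absurd (mem_univ l) h
    rw [e1, e2]
  · have e1 : (∑ l' ∈ good, if f l' = y then |D l'| else 0) = 0 := by
      apply Finset.sum_eq_zero
      intro l hl
      rw [if_neg]
      intro h
      exact hy ⟨l, hl, h⟩
    rw [e1]
    exact abs_nonneg _

theorem bucket_upper {L Q : Type} [Fintype L] [DecidableEq L] [Fintype Q] [DecidableEq Q]
    (D : L → ℝ) (f : L → Q) :
    ∑ y, |∑ l, if f l = y then D l else 0| ≤ ∑ l, |D l| := by
  have h1 : ∑ l, |D l| = ∑ y, ∑ l, if f l = y then |D l| else 0 := by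
    rw [Finset.sum_comm]
    apply Finset.sum_congr rfl
    intro l _
    rw [Finset.sum_ite_eq]
    simp
  rw [h1]
  apply Finset.sum_le_sum
  intro y _
  refine (Finset.abs_sum_le_sum_abs _ _).trans ?_
  apply Finset.sum_le_sum
  intro l _
  split_ifs
  · exact le_refl _
  · rw [abs_zero]

theorem compress {V L : Type} [Fintype V] [DecidableEq V] [Fintype L] [DecidableEq L]
    (F : V → L → ℝ) (s d q : ℕ) [Fact q.Prime]
    (hs : ∀ v, (univ.filter (fun l => F v l ≠ 0)).card ≤ s) (hq : 4 * s * d ≤ q)
    (hcard : Fintype.card V * s ≤ q ^ d) :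
    ∃ G : V → (ZMod q × ZMod q) → ℝ, ∀ u v,
      (q : ℝ) / 2 * ∑ l, |F u l - F v l| ≤ ∑ z, |G u z - G v z| ∧
      ∑ z, |G u z - G v z| ≤ q * ∑ l, |F u l - F v l| := by
  classical
  have hcardq : Fintype.card (ZMod q) = q := ZMod.card q
  set U : Finset L := univ.biUnion (fun v => univ.filter (fun l => F v l ≠ 0)) with hU
  have hUc : U.card ≤ q ^ d := by
    refine le_trans ?_ hcard
    have := Finset.card_biUnion_le_card_mul (univ : Finset V)
      (fun v => univ.filter (fun l => F v l ≠ 0)) s (fun v _ => hs v)
    simpa using this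
  have hle : Fintype.card U ≤ Fintype.card (Fin d → ZMod q) := by
    rw [Fintype.card_coe, Fintype.card_fun, hcardq, Fintype.card_fin]
    exact hUc
  obtain ⟨e⟩ := Function.Embedding.nonempty_of_card_le hle
  set code : L → (Fin d → ZMod q) := fun l => if h : l ∈ U then e ⟨l, h⟩ else 0 with hcode
  have hcinj : ∀ l ∈ U, ∀ l' ∈ U, code l = code l' → l = l' := by
    intro l hl l' hl' h
    simp only [hcode, hl, hl', dif_pos] at h
    have := e.injective h
    exact congrArg Subtype.val this
  refine ⟨fun v z => ∑ l, if ev (code l) z.1 = z.2 then F v l else 0, ?_⟩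
  intro u v
  set D : L → ℝ := fun l => F u l - F v l with hD
  have hsum : ∑ z : ZMod q × ZMod q, |(∑ l, if ev (code l) z.1 = z.2 then F u l else 0) -
      (∑ l, if ev (code l) z.1 = z.2 then F v l else 0)| =
      ∑ x : ZMod q, ∑ y : ZMod q, |∑ l, if ev (code l) x = y then D l else 0| := by
    rw [Fintype.sum_prod_type]
    apply Finset.sum_congr rfl
    intro x _
    apply Finset.sum_congr rfl
    intro y _
    rw [← Finset.sum_sub_distrib]
    congr 1
    apply Finset.sum_congr rfl
    intro l _
    split_ifs
    · rfl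
    · exact sub_zero _
  rw [hsum]
  constructor
  · -- lower bound
    set S : Finset L := univ.filter (fun l => F u l ≠ 0) ∪ univ.filter (fun l => F v l ≠ 0) with hS
    have hSc : S.card ≤ 2 * s := by
      refine (Finset.card_union_le _ _).trans ?_
      have := hs u
      have := hs v
      omega
    have hSU : ∀ l ∈ S, l ∈ U := by
      intro l hl
      rw [hS, Finset.mem_union] at hl
      rw [hU, Finset.mem_biUnion]
      rcases hl with hl | hl
      · exact ⟨u, mem_univ _, hl⟩
      · exact ⟨v, mem_univ _, hl⟩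
    have hS0 : ∀ l, l ∉ S → D l = 0 := by
      intro l hl
      rw [hS, Finset.mem_union, not_or] at hl
      simp only [mem_filter, mem_univ, true_and, not_not] at hl
      simp only [hD, hl.1, hl.2, sub_self]
    set good : ZMod q → Finset L :=
      fun x => S.filter (fun l => ∀ l' ∈ S, ev (code l') x = ev (code l) x → l' = l) with hgood
    have h1 : ∑ x, ∑ l ∈ good x, |D l| ≤
        ∑ x : ZMod q, ∑ y : ZMod q, |∑ l, if ev (code l) x = y then D l else 0| := by
      apply Finset.sum_le_sum
      intro x _
      apply bucket_lower D S hS0 (fun l => ev (code l) x) (good x)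
      · intro l hl
        rw [hgood] at hl
        simp only [mem_filter] at hl
        exact hl.2
      · exact Finset.filter_subset _ _
    refine le_trans ?_ h1
    have h2 : ∑ x, ∑ l ∈ good x, |D l| = ∑ l ∈ S, ((univ.filter (fun x => l ∈ good x)).card : ℝ) * |D l| := by
      have : ∀ x, ∑ l ∈ good x, |D l| = ∑ l ∈ S, if l ∈ good x then |D l| else 0 := by
        intro x
        rw [← Finset.sum_filter]
        apply Finset.sum_congr
        · ext l
          simp only [hgood, mem_filter]
          tauto
        · intros; rfl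
      rw [Finset.sum_congr rfl (fun x _ => this x), Finset.sum_comm]
      apply Finset.sum_congr rfl
      intro l _
      rw [← Finset.sum_filter, Finset.sum_const, nsmul_eq_mul]
    rw [h2]
    have h3 : ∑ l, |D l| = ∑ l ∈ S, |D l| := by
      symm
      apply Finset.sum_subset (Finset.subset_univ S)
      intro l _ hl
      rw [hS0 l hl, abs_zero]
    rw [h3, Finset.mul_sum]
    apply Finset.sum_le_sum
    intro l hl
    apply mul_le_mul_of_nonneg_right _ (abs_nonneg _)
    -- count the good points
    have hbad : (univ.filter (fun x => l ∉ good x)) ⊆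
        (S.erase l).biUnion (fun l' => univ.filter (fun x => ev (code l) x = ev (code l') x)) := by
      intro x hx
      simp only [hgood, mem_filter, mem_univ, true_and, not_and, not_forall] at hx
      obtain ⟨l', hl', h4, h5⟩ := hx hl
      rw [Finset.mem_biUnion]
      exact ⟨l', Finset.mem_erase.2 ⟨h5, hl'⟩, by simp [h4.symm]⟩
    have hbadc : (univ.filter (fun x => l ∉ good x)).card ≤ 2 * s * d := by
      refine (Finset.card_le_card hbad).trans ?_
      refine (Finset.card_biUnion_le_card_mul _ _ d ?_).trans ?_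
      · intro l' hl'
        rw [Finset.mem_erase] at hl'
        apply agree
        intro h
        exact hl'.1 (hcinj l (hSU l hl) l' (hSU l' hl'.2) h).symm
      · exact Nat.mul_le_mul_right d ((Finset.card_le_card (Finset.erase_subset _ _)).trans hSc)
    have htot : (univ.filter (fun x => l ∈ good x)).card +
        (univ.filter (fun x => l ∉ good x)).card = q := by
      rw [Finset.card_filter_add_card_filter_not]
      exact hcardq
    have h6 : q ≤ 2 * (univ.filter (fun x => l ∈ good x)).card := by
      have : 2 * (2 * s * d) = 4 * s * d := by ring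
      omega
    have h7 : (q : ℝ) ≤ 2 * ((univ.filter (fun x => l ∈ good x)).card : ℝ) := by exact_mod_cast h6
    linarith
  · calc ∑ x : ZMod q, ∑ y : ZMod q, |∑ l, if ev (code l) x = y then D l else 0|
        ≤ ∑ x : ZMod q, ∑ l, |D l| :=
          Finset.sum_le_sum fun x _ => bucket_upper D (fun l => ev (code l) x)
      _ = q * ∑ l, |D l| := by
          rw [Finset.sum_const, Finset.card_univ, hcardq, nsmul_eq_mul]

/-- an embedding into the functions on a finite type of size `≤ k` -/
theorem embeds_of_type {V K : Type} [Fintype K] (d : V → V → ℝ) (k : ℕ) (C : ℝ)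
    (hK : Fintype.card K ≤ k) (r : ℝ) (hr : 0 < r) (f : V → K → ℝ)
    (h : ∀ u v, r * d u v ≤ ∑ a, |f u a - f v a| ∧ ∑ a, |f u a - f v a| ≤ C * r * d u v) :
    R122BN.EmbedsL1 d k C := by
  classical
  have hle : Fintype.card K ≤ Fintype.card (Fin k) := by rw [Fintype.card_fin]; exact hK
  obtain ⟨e⟩ := Function.Embedding.nonempty_of_card_le hle
  refine ⟨r, hr, fun v => Function.extend e (f v) 0, ?_⟩
  intro u v
  have hs : ∑ l, |Function.extend e (f u) 0 l - Function.extend e (f v) 0 l| =
      ∑ a, |f u a - f v a| := by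
    symm
    apply Fintype.sum_of_injective e e.injective
    · intro i hi
      rw [Function.extend_apply' _ _ _ (by rintro ⟨a, rfl⟩; exact hi ⟨a, rfl⟩),
        Function.extend_apply' _ _ _ (by rintro ⟨a, rfl⟩; exact hi ⟨a, rfl⟩)]
      simp
    · intro a
      rw [e.injective.extend_apply, e.injective.extend_apply]
  rw [hs]
  exact h u v

/-- choice of the parameters -/
theorem exists_prime (ℓ : ℕ) (hℓ : 1 ≤ ℓ) :
    ∃ q, q.Prime ∧ 16 * ℓ ^ 2 < q ∧ q ≤ 32 * ℓ ^ 2 := by
  obtain ⟨p, h1, h2, h3⟩ := Nat.exists_prime_lt_and_le_two_mul (16 * ℓ ^ 2)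
    (by positivity)
  exact ⟨p, h1, h2, by linarith⟩

end R122PT
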