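import Pool.Agent.R122.PT.Tree

/-!
# The embedding of a rooted tree, cut into bands, with multi-scale weights
(helper122, MP_bd47c3_lc)
-/

namespace R122PT

open Finset

/-! ### auxiliary real functions -/

noncomputable def cl (c W t : ℝ) : ℝ := max c (min t (c + W))

theorem cl_mono (c W : ℝ) {s t : ℝ} (h : s ≤ t) : cl c W s ≤ cl c W t :=
  max_le_max (le_refl _) (min_le_min h (le_refl _))

theorem cl_ge (c W t : ℝ) : c ≤ cl c W t := le_max_left _ _

theorem cl_le (c W t : ℝ) (hW : 0 ≤ W) : cl c W t ≤ c + W :=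
  max_le (by linarith) (min_le_right _ _)

theorem cl_lip (c W : ℝ) {s t : ℝ} (h : s ≤ t) : cl c W t - cl c W s ≤ t - s := by
  unfold cl
  rcases le_total t (c + W) with h1 | h1
  · rw [min_eq_left h1, min_eq_left (h.trans h1)]
    rcases le_total c t with h2 | h2
    · rw [max_eq_right h2]
      have := le_max_right c s
      linarith
    · rw [max_eq_left h2]
      have := le_max_left c s
      linarith
  · rw [min_eq_right h1]
    rcases le_total c (c + W) with h2 | h2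
    · rw [max_eq_right h2]
      rcases le_total s (c + W) with h3 | h3
      · rw [min_eq_left h3]
        have := le_max_right c s
        linarith
      · rw [min_eq_right h3]
        have := le_max_right c (c + W)
        linarith
    · rw [max_eq_left h2]
      have := le_max_left c (min s (c + W))
      linarith

theorem clamp_lip (a b e : ℝ) (he : 0 ≤ e) (h : a ≤ b + e) :
    max 0 (min 1 a) ≤ max 0 (min 1 b) + e := by
  have h0 := le_max_left 0 (min 1 b)
  have h1 := le_max_right 0 (min 1 b)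
  apply max_le
  · linarith
  · rcases le_total 1 b with hb | hb
    · rw [min_eq_left hb] at h1
      have := min_le_left 1 a
      rw [min_eq_left hb]
      linarith [le_max_right (0 : ℝ) 1]
    · rw [min_eq_right hb] at h1 ⊢
      have := min_le_right 1 a
      linarith

noncomputable def gg (c W t : ℝ) : ℝ := max 0 (min 1 (4 / W * min (t - c) (c + W - t)))

theorem gg_nonneg (c W t : ℝ) : 0 ≤ gg c W t := le_max_left _ _

theorem gg_le_one (c W t : ℝ) : gg c W t ≤ 1 := max_le zero_le_one (min_le_left _ _)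

theorem gg_lip' (c W : ℝ) (hW : 0 < W) (s t : ℝ) : gg c W t ≤ gg c W s + 4 / W * |t - s| := by
  unfold gg
  have hp : 0 < 4 / W := by positivity
  apply clamp_lip _ _ _ (by positivity)
  rw [← mul_add]
  apply mul_le_mul_of_nonneg_left _ hp.le
  have h1 := le_abs_self (t - s)
  have h2 := neg_abs_le (t - s)
  rcases le_total (s - c) (c + W - s) with h | h
  · rw [min_eq_left h]
    have := min_le_left (t - c) (c + W - t)
    linarith
  · rw [min_eq_right h]
    have := min_le_right (t - c) (c + W - t)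
    linarith

theorem gg_lip (c W : ℝ) (hW : 0 < W) (s t : ℝ) : |gg c W t - gg c W s| ≤ 4 / W * |t - s| := by
  rw [abs_le]
  have h1 := gg_lip' c W hW s t
  have h2 := gg_lip' c W hW t s
  rw [abs_sub_comm s t] at h2
  constructor <;> linarith

theorem gg_ne (c W : ℝ) (hW : 0 < W) (t : ℝ) (h : gg c W t ≠ 0) : c < t ∧ t < c + W := by
  by_contra hcon
  apply h
  unfold gg
  apply max_eq_left
  refine le_trans (min_le_right _ _) ?_
  have hp : 0 < 4 / W := by positivity
  apply mul_nonpos_of_nonneg_of_nonpos hp.le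
  rw [not_and_or, not_lt, not_lt] at hcon
  rcases hcon with h | h
  · exact le_trans (min_le_left _ _) (by linarith)
  · exact le_trans (min_le_right _ _) (by linarith)

theorem gg_one (c W : ℝ) (hW : 0 < W) (t : ℝ) (h1 : c + W / 4 ≤ t) (h2 : t ≤ c + 3 * W / 4) :
    gg c W t = 1 := by
  unfold gg
  have h3 : W / 4 ≤ min (t - c) (c + W - t) := le_min (by linarith) (by linarith)
  have h4 : 1 ≤ 4 / W * min (t - c) (c + W - t) := by
    have : 4 / W * (W / 4) = 1 := by field_simp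
    rw [← this]
    exact mul_le_mul_of_nonneg_left h3 (by positivity)
  rw [min_eq_left h4]
  exact max_eq_right zero_le_one

noncomputable def ph (t : ℝ) : ℝ := max 0 (min (2 * t - 1) (2 - t))

theorem ph_nonneg (t : ℝ) : 0 ≤ ph t := le_max_left _ _

theorem ph_le_one (t : ℝ) : ph t ≤ 1 := by
  unfold ph
  apply max_le zero_le_one
  have h1 := min_le_left (2 * t - 1) (2 - t)
  have h2 := min_le_right (2 * t - 1) (2 - t)
  linarith

theorem ph_lip' (s t : ℝ) : ph t ≤ ph s + 2 * |t - s| := by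
  unfold ph
  have h1 := le_abs_self (t - s)
  have h2 := neg_abs_le (t - s)
  have h0 := abs_nonneg (t - s)
  have h3 := le_max_left 0 (min (2 * s - 1) (2 - s))
  have h4 := le_max_right 0 (min (2 * s - 1) (2 - s))
  apply max_le
  · linarith
  · have h5 := min_le_left (2 * t - 1) (2 - t)
    have h6 := min_le_right (2 * t - 1) (2 - t)
    rcases le_total (2 * s - 1) (2 - s) with h | h
    · rw [min_eq_left h] at h4 ⊢
      linarith
    · rw [min_eq_right h] at h4 ⊢
      linarith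

theorem ph_lip (s t : ℝ) : |ph t - ph s| ≤ 2 * |t - s| := by
  rw [abs_le]
  have h1 := ph_lip' s t
  have h2 := ph_lip' t s
  rw [abs_sub_comm s t] at h2
  constructor <;> linarith

theorem ph_ne (t : ℝ) (h : ph t ≠ 0) : 1 / 2 < t ∧ t < 2 := by
  by_contra hcon
  apply h
  unfold ph
  apply max_eq_left
  rw [not_and_or, not_lt, not_lt] at hcon
  rcases hcon with h | h
  · exact le_trans (min_le_left _ _) (by linarith)
  · exact le_trans (min_le_right _ _) (by linarith)

theorem exists_scale (m : ℝ) (h0 : 0 < m) (h1 : m ≤ 1 / 2) :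
    ∃ j : ℕ, 1 / 2 ≤ ph (m / (1 / 2) ^ j) := by
  have hex : ∃ n : ℕ, ((1 : ℝ) / 2) ^ n < m := exists_pow_lt_of_lt_one h0 (by norm_num)
  classical
  obtain ⟨n, hn⟩ : ∃ n, n = Nat.find hex := ⟨_, rfl⟩
  have hs := Nat.find_spec hex
  rw [← hn] at hs
  have hn1 : n ≠ 0 := by
    rintro rfl
    norm_num at hs
    linarith
  obtain ⟨k, rfl⟩ : ∃ k, n = k + 1 := ⟨n - 1, by omega⟩
  have hk : m ≤ (1 / 2 : ℝ) ^ k := by
    have := Nat.find_min hex (m := k) (by omega)
    linarith [not_lt.mp this]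
  have hp : (0 : ℝ) < (1 / 2) ^ k := by positivity
  rw [pow_succ] at hs
  rcases le_total (3 / 4 * (1 / 2 : ℝ) ^ k) m with h | h
  · refine ⟨k, ?_⟩
    unfold ph
    refine le_trans ?_ (le_max_right _ _)
    have e1 : 3 / 4 ≤ m / (1 / 2) ^ k := by rw [le_div_iff₀ hp]; linarith
    have e2 : m / (1 / 2) ^ k ≤ 1 := by rw [div_le_iff₀ hp]; linarith
    apply le_min <;> linarith
  · refine ⟨k + 1, ?_⟩
    unfold ph
    refine le_trans ?_ (le_max_right _ _)
    have hp' : (0 : ℝ) < (1 / 2) ^ (k + 1) := by positivity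
    have e1 : 1 ≤ m / (1 / 2) ^ (k + 1) := by rw [le_div_iff₀ hp', pow_succ]; linarith
    have e2 : m / (1 / 2) ^ (k + 1) ≤ 3 / 2 := by rw [div_le_iff₀ hp', pow_succ]; linarith
    apply le_min <;> linarith

/-- the bottom of a band -/
noncomputable def bot (W : ℝ) (θ : Bool) (k : ℕ) : ℝ := (k - (if θ then 1 / 2 else 0)) * W

theorem exists_band (W t : ℝ) (hW : 0 < W) (ht : 0 ≤ t) :
    ∃ θ k, bot W θ k + W / 4 ≤ t ∧ t ≤ bot W θ k + 3 * W / 4 := by
  have h1 : (⌊t / W⌋₊ : ℝ) * W ≤ t := by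
    have := Nat.floor_le (div_nonneg ht hW.le)
    rwa [le_div_iff₀ hW] at this
  have h2 : t < ((⌊t / W⌋₊ : ℝ) + 1) * W := by
    have := Nat.lt_floor_add_one (t / W)
    rwa [div_lt_iff₀ hW] at this
  set k := ⌊t / W⌋₊
  unfold bot
  rcases le_total t (k * W + W / 4) with h | h
  · refine ⟨true, k, ?_, ?_⟩ <;> simp only [if_true] <;> linarith
  · rcases le_total t (k * W + 3 * W / 4) with h' | h'
    · refine ⟨false, k, ?_, ?_⟩ <;>
        simp only [Bool.false_eq_true, if_false, sub_zero] <;> linarith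
    · refine ⟨true, k + 1, ?_, ?_⟩ <;> simp only [if_true] <;> push_cast <;> linarith

theorem band_unique (W t : ℝ) (hW : 0 < W) (θ : Bool) (k l : ℕ)
    (h1 : bot W θ k < t ∧ t < bot W θ k + W) (h2 : bot W θ l < t ∧ t < bot W θ l + W) : k = l := by
  unfold bot at *
  have a : ((k : ℝ) - (if θ then 1 / 2 else 0)) * W < ((l : ℝ) - (if θ then 1 / 2 else 0) + 1) * W := by
    linarith
  have b : ((l : ℝ) - (if θ then 1 / 2 else 0)) * W < ((k : ℝ) - (if θ then 1 / 2 else 0) + 1) * W := by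
    linarith
  have a' := lt_of_mul_lt_mul_right a hW.le
  have b' := lt_of_mul_lt_mul_right b hW.le
  have a'' : (k : ℝ) < l + 1 := by linarith
  have b'' : (l : ℝ) < k + 1 := by linarith
  have a3 : k < l + 1 := by exact_mod_cast a''
  have b3 : l < k + 1 := by exact_mod_cast b''
  omega

/-! ### the tree data -/

variable {V : Type} [Fintype V] [DecidableEq V] {G : SimpleGraph V}

structure TD (R : RT G) where
  dep : V → ℝ
  m : V → ℝ
  lab : V → V
  dep_root : dep R.root = 0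
  dep_par : ∀ v, dep (R.par v) ≤ dep v
  m_nonneg : ∀ v, 0 ≤ m v
  m_le : ∀ v, m v ≤ 1 / 2
  m_par : ∀ v, |m v - m (R.par v)| ≤ dep v - dep (R.par v)
  lab_comp : ∀ w w', lab w = lab w' → w ∈ R.ancs w' ∨ w' ∈ R.ancs w

namespace TD

variable {R : RT G} (D : TD R)

omit [DecidableEq V] in
theorem dep_mono {x v : V} (h : x ∈ R.ancs v) : D.dep x ≤ D.dep v := by
  rw [RT.mem_ancs] at h
  obtain ⟨i, rfl⟩ := h
  induction i with
  | zero => exact le_refl _
  | succ i ih =>
    rw [Function.iterate_succ_apply']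
    exact (D.dep_par _).trans ih

omit [DecidableEq V] in
theorem dep_nonneg (v : V) : 0 ≤ D.dep v := by
  rw [← D.dep_root]; exact D.dep_mono (R.root_mem v)

noncomputable def dl (c W : ℝ) (x : V) : ℝ := cl c W (D.dep x) - cl c W (D.dep (R.par x))

omit [DecidableEq V] in
theorem dl_nonneg (c W : ℝ) (x : V) : 0 ≤ D.dl c W x :=
  sub_nonneg.2 (cl_mono c W (D.dep_par x))

noncomputable def a (c W : ℝ) (P v : V) : ℝ :=
  ∑ x ∈ R.ancs v, if D.lab x = P then D.dl c W x else 0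

theorem a_nonneg (c W : ℝ) (P v : V) : 0 ≤ D.a c W P v :=
  Finset.sum_nonneg fun x _ => by
    split_ifs
    · exact D.dl_nonneg c W x
    · exact le_refl _

theorem sum_a (c W : ℝ) (v : V) :
    ∑ P, D.a c W P v = cl c W (D.dep v) - cl c W (D.dep R.root) := by
  unfold a
  rw [Finset.sum_comm]
  rw [← R.sum_ancs (fun x => cl c W (D.dep x)) v]
  apply Finset.sum_congr rfl
  intro x _
  rw [Finset.sum_ite_eq]
  simp [dl]

theorem sum_a_le (c W : ℝ) (hW : 0 ≤ W) (v : V) : ∑ P, D.a c W P v ≤ W := by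
  rw [sum_a]
  have := cl_le c W (D.dep v) hW
  have := cl_ge c W (D.dep R.root)
  linarith

theorem a_par (c W : ℝ) (P v : V) :
    D.a c W P v - D.a c W P (R.par v) = if D.lab v = P then D.dl c W v else 0 := by
  by_cases hv : v = R.root
  · have : D.dl c W v = 0 := by unfold dl; rw [hv, R.par_root, sub_self]
    rw [this, hv, R.par_root]
    simp
  · unfold a
    rw [R.ancs_step v, Finset.sum_insert (R.not_mem_par hv)]
    ring

theorem sum_abs_par (c W : ℝ) (v : V) :
    ∑ P, |D.a c W P v - D.a c W P (R.par v)| ≤ D.dep v - D.dep (R.par v) := by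
  have : ∑ P, |D.a c W P v - D.a c W P (R.par v)| = D.dl c W v := by
    have h : ∀ P, |D.a c W P v - D.a c W P (R.par v)| = if D.lab v = P then D.dl c W v else 0 := by
      intro P
      rw [a_par]
      split_ifs
      · exact abs_of_nonneg (D.dl_nonneg c W v)
      · exact abs_zero
    rw [Finset.sum_congr rfl (fun P _ => h P), Finset.sum_ite_eq]
    simp
  rw [this]
  exact cl_lip c W (D.dep_par v)

theorem lower_a (c W : ℝ) (u v : V) :
    ∑ x ∈ R.ancs u \ R.ancs v, D.dl c W x ≤ ∑ P, |D.a c W P u - D.a c W P v| := by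
  have h1 : ∑ x ∈ R.ancs u \ R.ancs v, D.dl c W x =
      ∑ P, ∑ x ∈ R.ancs u \ R.ancs v, if D.lab x = P then D.dl c W x else 0 := by
    rw [Finset.sum_comm]
    apply Finset.sum_congr rfl
    intro x _
    rw [Finset.sum_ite_eq]
    simp
  rw [h1]
  apply Finset.sum_le_sum
  intro P _
  have hsplit : D.a c W P u - D.a c W P v =
      (∑ x ∈ R.ancs u \ R.ancs v, if D.lab x = P then D.dl c W x else 0) -
      ∑ x ∈ R.ancs v \ R.ancs u, if D.lab x = P then D.dl c W x else 0 := by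
    unfold a
    rw [← Finset.sum_inter_add_sum_sdiff (R.ancs u) (R.ancs v),
      ← Finset.sum_inter_add_sum_sdiff (R.ancs v) (R.ancs u), Finset.inter_comm (R.ancs v)]
    ring
  by_cases hP : ∃ x ∈ R.ancs u \ R.ancs v, D.lab x = P
  · obtain ⟨x, hx, hxP⟩ := hP
    have hz : (∑ x ∈ R.ancs v \ R.ancs u, if D.lab x = P then D.dl c W x else 0) = 0 := by
      apply Finset.sum_eq_zero
      intro y hy
      rw [if_neg]
      intro hyP
      rw [Finset.mem_sdiff] at hx hy
      rcases D.lab_comp x y (hxP.trans hyP.symm) with h | h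
      · exact hx.2 (R.mem_trans h hy.1)
      · exact hy.2 (R.mem_trans h hx.1)
    rw [hsplit, hz, sub_zero]
    exact le_abs_self _
  · have hz : (∑ x ∈ R.ancs u \ R.ancs v, if D.lab x = P then D.dl c W x else 0) = 0 := by
      apply Finset.sum_eq_zero
      intro y hy
      rw [if_neg]
      intro hyP
      exact hP ⟨y, hy, hyP⟩
    rw [hz]
    exact abs_nonneg _

theorem E_lower (c W : ℝ) (hW : 0 ≤ W) (p q : ℝ) (hp : 0 ≤ p) (hq : 0 ≤ q) (u v : V) :
    p * ∑ P, |D.a c W P u - D.a c W P v| ≤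
      ∑ P, |p * D.a c W P u - q * D.a c W P v| + |W * p - W * q| := by
  have hS : 0 ≤ ∑ P, |D.a c W P u - D.a c W P v| := Finset.sum_nonneg fun _ _ => abs_nonneg _
  rcases le_total q p with h | h
  · have h1 : p * ∑ P, |D.a c W P u - D.a c W P v| - (p - q) * ∑ P, D.a c W P v ≤
        ∑ P, |p * D.a c W P u - q * D.a c W P v| := by
      rw [Finset.mul_sum, Finset.mul_sum, ← Finset.sum_sub_distrib]
      apply Finset.sum_le_sum
      intro P _
      have e1 : p * |D.a c W P u - D.a c W P v| = |p * (D.a c W P u - D.a c W P v)| := by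
        rw [abs_mul, abs_of_nonneg hp]
      have e2 : (p - q) * D.a c W P v = |(p - q) * D.a c W P v| := by
        rw [abs_of_nonneg (mul_nonneg (by linarith) (D.a_nonneg c W P v))]
      rw [e1, e2]
      have e3 : p * D.a c W P u - q * D.a c W P v =
        p * (D.a c W P u - D.a c W P v) + (p - q) * D.a c W P v := by ring
      rw [e3]
      have := abs_sub_abs_le_abs_sub (p * (D.a c W P u - D.a c W P v)) (-((p - q) * D.a c W P v))
      rw [abs_neg, sub_neg_eq_add] at this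
      exact this
    have h2 := mul_le_mul_of_nonneg_left (D.sum_a_le c W hW v) (show 0 ≤ p - q by linarith)
    have h3 : |W * p - W * q| = (p - q) * W := by
      rw [← mul_sub, abs_of_nonneg (mul_nonneg hW (by linarith))]; ring
    rw [h3]
    linarith
  · have h1 : q * ∑ P, |D.a c W P u - D.a c W P v| - (q - p) * ∑ P, D.a c W P u ≤
        ∑ P, |p * D.a c W P u - q * D.a c W P v| := by
      rw [Finset.mul_sum, Finset.mul_sum, ← Finset.sum_sub_distrib]
      apply Finset.sum_le_sum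
      intro P _
      have e1 : q * |D.a c W P u - D.a c W P v| = |q * (D.a c W P u - D.a c W P v)| := by
        rw [abs_mul, abs_of_nonneg hq]
      have e2 : (q - p) * D.a c W P u = |(q - p) * D.a c W P u| := by
        rw [abs_of_nonneg (mul_nonneg (by linarith) (D.a_nonneg c W P u))]
      rw [e1, e2]
      have e3 : p * D.a c W P u - q * D.a c W P v =
        q * (D.a c W P u - D.a c W P v) - (q - p) * D.a c W P u := by ring
      rw [e3]
      exact abs_sub_abs_le_abs_sub _ _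
    have h2 := mul_le_mul_of_nonneg_left (D.sum_a_le c W hW u) (show 0 ≤ q - p by linarith)
    have h3 : |W * p - W * q| = (q - p) * W := by
      rw [← mul_sub, abs_of_nonpos (mul_nonpos_of_nonneg_of_nonpos hW (by linarith))]; ring
    have h4 := mul_le_mul_of_nonneg_right h hS
    rw [h3]
    linarith

theorem E_upper (c W : ℝ) (hW : 0 ≤ W) (p q : ℝ) (hp : 0 ≤ p) (u v : V) :
    ∑ P, |p * D.a c W P u - q * D.a c W P v| + |W * p - W * q| ≤
      p * ∑ P, |D.a c W P u - D.a c W P v| + 2 * W * |p - q| := by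
  have h1 : ∑ P, |p * D.a c W P u - q * D.a c W P v| ≤
      p * ∑ P, |D.a c W P u - D.a c W P v| + |p - q| * ∑ P, D.a c W P v := by
    rw [Finset.mul_sum, Finset.mul_sum, ← Finset.sum_add_distrib]
    apply Finset.sum_le_sum
    intro P _
    have e1 : p * |D.a c W P u - D.a c W P v| = |p * (D.a c W P u - D.a c W P v)| := by
      rw [abs_mul, abs_of_nonneg hp]
    have e2 : |p - q| * D.a c W P v = |(p - q) * D.a c W P v| := by
      rw [abs_mul, abs_of_nonneg (D.a_nonneg c W P v)]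
    rw [e1, e2]
    have e3 : p * D.a c W P u - q * D.a c W P v =
      p * (D.a c W P u - D.a c W P v) + (p - q) * D.a c W P v := by ring
    rw [e3]
    exact abs_add_le _ _
  have h2 := mul_le_mul_of_nonneg_left (D.sum_a_le c W hW v) (abs_nonneg (p - q))
  have h3 : |W * p - W * q| = W * |p - q| := by
    rw [← mul_sub, abs_mul, abs_of_nonneg hW]
  rw [h3]
  linarith

/-! ### the multi-scale map -/

/-- weights -/
noncomputable def ps (j : ℕ) (θ : Bool) (k : ℕ) (v : V) : ℝ :=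
  ph (D.m v / (1 / 2) ^ j) * gg (bot ((1 / 2) ^ j) θ k) ((1 / 2) ^ j) (D.dep v)

omit [DecidableEq V] in
theorem ps_nonneg (j : ℕ) (θ : Bool) (k : ℕ) (v : V) : 0 ≤ D.ps j θ k v :=
  mul_nonneg (ph_nonneg _) (gg_nonneg _ _ _)

omit [DecidableEq V] in
theorem ps_le_one (j : ℕ) (θ : Bool) (k : ℕ) (v : V) : D.ps j θ k v ≤ 1 := by
  unfold ps
  exact mul_le_one₀ (ph_le_one _) (gg_nonneg _ _ _) (gg_le_one _ _ _)

omit [DecidableEq V] in
theorem ps_lip (j : ℕ) (θ : Bool) (k : ℕ) (v : V) :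
    (1 / 2) ^ j * |D.ps j θ k v - D.ps j θ k (R.par v)| ≤ 6 * (D.dep v - D.dep (R.par v)) := by
  have hr : (0 : ℝ) < (1 / 2) ^ j := by positivity
  have h1 := ph_lip (D.m (R.par v) / (1 / 2) ^ j) (D.m v / (1 / 2) ^ j)
  have h2 := gg_lip (bot ((1 / 2) ^ j) θ k) ((1 / 2) ^ j) hr (D.dep (R.par v)) (D.dep v)
  have h3 := D.m_par v
  have h4 : |D.m v / (1 / 2) ^ j - D.m (R.par v) / (1 / 2) ^ j| =
      |D.m v - D.m (R.par v)| / (1 / 2) ^ j := by
    rw [← sub_div, abs_div, abs_of_pos hr]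
  have h5 : |D.dep v - D.dep (R.par v)| = D.dep v - D.dep (R.par v) :=
    abs_of_nonneg (by have := D.dep_par v; linarith)
  rw [h4] at h1
  rw [h5] at h2
  unfold ps
  set A := ph (D.m v / (1 / 2) ^ j)
  set A' := ph (D.m (R.par v) / (1 / 2) ^ j)
  set C := gg (bot ((1 / 2) ^ j) θ k) ((1 / 2) ^ j) (D.dep v) with hC
  set C' := gg (bot ((1 / 2) ^ j) θ k) ((1 / 2) ^ j) (D.dep (R.par v)) with hC'
  have hA'0 : 0 ≤ A' := ph_nonneg _
  have hA'1 : A' ≤ 1 := ph_le_one _
  have hC0 : 0 ≤ C := gg_nonneg _ _ _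
  have hC1 : C ≤ 1 := gg_le_one _ _ _
  have e1 : |A * C - A' * C'| ≤ |A - A'| + |C - C'| := by
    have : A * C - A' * C' = (A - A') * C + A' * (C - C') := by ring
    rw [this]
    refine (abs_add_le _ _).trans ?_
    rw [abs_mul, abs_mul, abs_of_nonneg hC0, abs_of_nonneg hA'0]
    have f1 := mul_le_mul_of_nonneg_left hC1 (abs_nonneg (A - A'))
    have f2 := mul_le_mul_of_nonneg_right hA'1 (abs_nonneg (C - C'))
    linarith
  have e2 : (1 / 2) ^ j * |A * C - A' * C'| ≤ (1 / 2) ^ j * (|A - A'| + |C - C'|) :=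
    mul_le_mul_of_nonneg_left e1 hr.le
  have e3 : (1 / 2) ^ j * |A - A'| ≤ 2 * (D.dep v - D.dep (R.par v)) := by
    calc (1 / 2) ^ j * |A - A'| ≤ (1 / 2) ^ j * (2 * (|D.m v - D.m (R.par v)| / (1 / 2) ^ j)) :=
          mul_le_mul_of_nonneg_left h1 hr.le
      _ = 2 * |D.m v - D.m (R.par v)| := by field_simp
      _ ≤ _ := by linarith
  have e4 : (1 / 2) ^ j * |C - C'| ≤ 4 * (D.dep v - D.dep (R.par v)) := by
    calc (1 / 2) ^ j * |C - C'| ≤ (1 / 2) ^ j * (4 / (1 / 2) ^ j * (D.dep v - D.dep (R.par v))) :=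
          mul_le_mul_of_nonneg_left h2 hr.le
      _ = _ := by field_simp
  rw [mul_add] at e2
  linarith

open Classical in
/-- active bands -/
noncomputable def act (J K : ℕ) (v : V) : Finset (Fin J × Bool × Fin K) :=
  univ.filter (fun b => D.ps b.1 b.2.1 b.2.2 v ≠ 0)

omit [DecidableEq V] in
theorem ps_ne {j : ℕ} {θ : Bool} {k : ℕ} {v : V} (h : D.ps j θ k v ≠ 0) :
    (1 / 2) ^ j < 2 * D.m v ∧ D.m v < 2 * (1 / 2) ^ j ∧
    bot ((1 / 2) ^ j) θ k < D.dep v ∧ D.dep v < bot ((1 / 2) ^ j) θ k + (1 / 2) ^ j := by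
  have hr : (0 : ℝ) < (1 / 2) ^ j := by positivity
  unfold ps at h
  have h1 := ph_ne _ (left_ne_zero_of_mul h)
  have h2 := gg_ne _ _ hr _ (right_ne_zero_of_mul h)
  rw [lt_div_iff₀ hr, div_lt_iff₀ hr] at h1
  exact ⟨by linarith, by linarith, h2.1, h2.2⟩

omit [DecidableEq V] in
theorem card_act (J K : ℕ) (v : V) : (D.act J K v).card ≤ 4 := by
  have hinj : Set.InjOn (fun b : Fin J × Bool × Fin K => ((b.2.1, decide (b.1.val % 2 = 0)) :
      Bool × Bool)) (D.act J K v : Finset _) := by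
    rintro ⟨j, θ, k⟩ h1 ⟨j', θ', k'⟩ h2 heq
    simp only [act, coe_filter, mem_univ, true_and, Set.mem_setOf_eq] at h1 h2
    simp only [Prod.mk.injEq, decide_eq_decide] at heq
    obtain ⟨rfl, hpar⟩ := heq
    have a1 := D.ps_ne h1
    have a2 := D.ps_ne h2
    have hjj : j.val = j'.val := by
      by_contra hne
      have aux : ∀ a b : ℕ, a < b → (a % 2 = 0 ↔ b % 2 = 0) →
          ((1 : ℝ) / 2) ^ a < 2 * D.m v → D.m v < 2 * (1 / 2) ^ b → False := by
        intro a b hab hp h3 h4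
        have hab2 : a + 2 ≤ b := by omega
        have h5 : ((1 : ℝ) / 2) ^ b ≤ (1 / 2) ^ (a + 2) :=
          pow_le_pow_of_le_one (by norm_num) (by norm_num) hab2
        rw [pow_add] at h5
        norm_num at h5 h3 h4
        linarith
      rcases lt_or_gt_of_ne hne with h | h
      · exact aux _ _ h hpar a1.1 a2.2.1
      · exact aux _ _ h hpar.symm a2.1 a1.2.1
    have hj : j = j' := Fin.ext hjj
    subst hj
    have hr : (0 : ℝ) < (1 / 2) ^ (j : ℕ) := by positivity
    have hk := band_unique _ _ hr θ k k' a1.2.2 a2.2.2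
    have : k = k' := Fin.ext hk
    rw [this]
  have := Finset.card_le_card_of_injOn (t := univ) _ (fun _ _ => by simp) hinj
  simpa using this

/-- the map -/
noncomputable def Phi (J K : ℕ) (v : V) : (Fin J × Bool × Fin K) × Option V → ℝ :=
  fun l => match l with
    | (b, none) => (1 / 2) ^ (b.1 : ℕ) * D.ps b.1 b.2.1 b.2.2 v
    | (b, some P) => D.ps b.1 b.2.1 b.2.2 v *
        D.a (bot ((1 / 2) ^ (b.1 : ℕ)) b.2.1 b.2.2) ((1 / 2) ^ (b.1 : ℕ)) P v

theorem sum_Phi (J K : ℕ) (u v : V) : ∑ l, |D.Phi J K u l - D.Phi J K v l| =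
    ∑ b : Fin J × Bool × Fin K, (∑ P, |D.ps b.1 b.2.1 b.2.2 u *
        D.a (bot ((1 / 2) ^ (b.1 : ℕ)) b.2.1 b.2.2) ((1 / 2) ^ (b.1 : ℕ)) P u -
        D.ps b.1 b.2.1 b.2.2 v *
        D.a (bot ((1 / 2) ^ (b.1 : ℕ)) b.2.1 b.2.2) ((1 / 2) ^ (b.1 : ℕ)) P v| +
      |(1 / 2) ^ (b.1 : ℕ) * D.ps b.1 b.2.1 b.2.2 u -
        (1 / 2) ^ (b.1 : ℕ) * D.ps b.1 b.2.1 b.2.2 v|) := by
  rw [Fintype.sum_prod_type]
  apply Finset.sum_congr rfl
  intro b _
  rw [Fintype.sum_option, add_comm]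
  rfl

theorem sum_le_card {ι : Type} [Fintype ι] [DecidableEq ι] (f : ι → ℝ) (S : Finset ι) (n : ℕ)
    (hS : S.card ≤ n) (C : ℝ) (hC : 0 ≤ C) (h0 : ∀ i, i ∉ S → f i = 0) (h1 : ∀ i, i ∈ S → f i ≤ C) :
    ∑ i, f i ≤ n * C := by
  rw [← Finset.sum_subset (Finset.subset_univ S) (fun i _ hi => h0 i hi)]
  calc ∑ i ∈ S, f i ≤ ∑ i ∈ S, C := Finset.sum_le_sum h1
    _ = S.card * C := by rw [Finset.sum_const, nsmul_eq_mul]
    _ ≤ n * C := mul_le_mul_of_nonneg_right (by exact_mod_cast hS) hC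

theorem Phi_edge (J K : ℕ) (v : V) : ∑ l, |D.Phi J K v l - D.Phi J K (R.par v) l| ≤
    104 * (D.dep v - D.dep (R.par v)) := by
  classical
  have hl : 0 ≤ D.dep v - D.dep (R.par v) := by have := D.dep_par v; linarith
  rw [sum_Phi]
  refine (sum_le_card _ (D.act J K v ∪ D.act J K (R.par v)) 8 ?_
    (13 * (D.dep v - D.dep (R.par v))) (by linarith) ?_ ?_).trans (by push_cast; linarith)
  · refine (Finset.card_union_le _ _).trans ?_
    have := D.card_act J K v
    have := D.card_act J K (R.par v)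
    omega
  · intro b hb
    rw [Finset.mem_union, not_or] at hb
    simp only [act, mem_filter, mem_univ, true_and, not_not] at hb
    rw [hb.1, hb.2]
    simp
  · intro b _
    have hr : (0 : ℝ) ≤ (1 / 2) ^ (b.1 : ℕ) := by positivity
    refine (D.E_upper _ _ hr _ _ (D.ps_nonneg _ _ _ _) _ _).trans ?_
    have h1 := D.sum_abs_par (bot ((1 / 2) ^ (b.1 : ℕ)) b.2.1 b.2.2) ((1 / 2) ^ (b.1 : ℕ)) v
    have h2 := D.ps_lip b.1 b.2.1 b.2.2 v
    have h3 : D.ps b.1 b.2.1 b.2.2 v * ∑ P, |D.a (bot ((1 / 2) ^ (b.1 : ℕ)) b.2.1 b.2.2)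
        ((1 / 2) ^ (b.1 : ℕ)) P v - D.a (bot ((1 / 2) ^ (b.1 : ℕ)) b.2.1 b.2.2)
        ((1 / 2) ^ (b.1 : ℕ)) P (R.par v)| ≤ 1 * (D.dep v - D.dep (R.par v)) :=
      mul_le_mul (D.ps_le_one _ _ _ _) h1 (Finset.sum_nonneg fun _ _ => abs_nonneg _) zero_le_one
    linarith

theorem Phi_norm (J K : ℕ) (v : V) : ∑ l, |D.Phi J K v l| ≤ 16 * D.m v := by
  classical
  have hm := D.m_nonneg v
  have hs : ∑ l, |D.Phi J K v l| = ∑ b : Fin J × Bool × Fin K,
      (∑ P, |D.ps b.1 b.2.1 b.2.2 v *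
        D.a (bot ((1 / 2) ^ (b.1 : ℕ)) b.2.1 b.2.2) ((1 / 2) ^ (b.1 : ℕ)) P v| +
      |(1 / 2) ^ (b.1 : ℕ) * D.ps b.1 b.2.1 b.2.2 v|) := by
    rw [Fintype.sum_prod_type]
    apply Finset.sum_congr rfl
    intro b _
    rw [Fintype.sum_option, add_comm]
    rfl
  rw [hs]
  refine (sum_le_card _ (D.act J K v) 4 (D.card_act J K v) (4 * D.m v) (by linarith) ?_ ?_).trans
    (by push_cast; linarith)
  · intro b hb
    simp only [act, mem_filter, mem_univ, true_and, not_not] at hb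
    rw [hb]
    simp
  · intro b hb
    simp only [act, mem_filter, mem_univ, true_and] at hb
    have h1 := (D.ps_ne hb).1
    have hr : (0 : ℝ) ≤ (1 / 2) ^ (b.1 : ℕ) := by positivity
    have hp0 := D.ps_nonneg b.1 b.2.1 b.2.2 v
    have hp1 := D.ps_le_one b.1 b.2.1 b.2.2 v
    have h2 : ∑ P, |D.ps b.1 b.2.1 b.2.2 v *
        D.a (bot ((1 / 2) ^ (b.1 : ℕ)) b.2.1 b.2.2) ((1 / 2) ^ (b.1 : ℕ)) P v| ≤
        1 * (1 / 2) ^ (b.1 : ℕ) := by
      have : ∀ P, |D.ps b.1 b.2.1 b.2.2 v *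
        D.a (bot ((1 / 2) ^ (b.1 : ℕ)) b.2.1 b.2.2) ((1 / 2) ^ (b.1 : ℕ)) P v| =
        D.ps b.1 b.2.1 b.2.2 v *
        D.a (bot ((1 / 2) ^ (b.1 : ℕ)) b.2.1 b.2.2) ((1 / 2) ^ (b.1 : ℕ)) P v := by
        intro P
        exact abs_of_nonneg (mul_nonneg hp0 (D.a_nonneg _ _ _ _))
      rw [Finset.sum_congr rfl (fun P _ => this P), ← Finset.mul_sum]
      exact mul_le_mul hp1 (D.sum_a_le _ _ hr v)
        (Finset.sum_nonneg fun _ _ => D.a_nonneg _ _ _ _) zero_le_one
    have h3 : |(1 / 2) ^ (b.1 : ℕ) * D.ps b.1 b.2.1 b.2.2 v| ≤ (1 / 2) ^ (b.1 : ℕ) * 1 := by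
      rw [abs_of_nonneg (mul_nonneg hr hp0)]
      exact mul_le_mul_of_nonneg_left hp1 hr
    linarith

theorem Phi_lower (J K : ℕ) (u v : V) (j : ℕ) (θ : Bool) (k : ℕ) (hj : j < J) (hk : k < K)
    (h1 : 1 / 2 ≤ ph (D.m u / (1 / 2) ^ j))
    (h2 : bot ((1 / 2) ^ j) θ k + (1 / 2) ^ j / 4 ≤ D.dep u)
    (h3 : D.dep u ≤ bot ((1 / 2) ^ j) θ k + 3 * (1 / 2) ^ j / 4) :
    ∃ z ∈ R.ancs u, z ∈ R.ancs v ∧
      min ((D.dep u - D.dep z) / 2) (D.m u / 16) ≤ ∑ l, |D.Phi J K u l - D.Phi J K v l| := by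
  obtain ⟨z, hz1, hz2, hf⟩ := R.sum_diff v u
  refine ⟨z, hz1, hz2, ?_⟩
  have hr : (0 : ℝ) < (1 / 2) ^ j := by positivity
  rw [sum_Phi]
  have hnn : ∀ b : Fin J × Bool × Fin K, 0 ≤ (∑ P, |D.ps b.1 b.2.1 b.2.2 u *
        D.a (bot ((1 / 2) ^ (b.1 : ℕ)) b.2.1 b.2.2) ((1 / 2) ^ (b.1 : ℕ)) P u -
        D.ps b.1 b.2.1 b.2.2 v *
        D.a (bot ((1 / 2) ^ (b.1 : ℕ)) b.2.1 b.2.2) ((1 / 2) ^ (b.1 : ℕ)) P v| +
      |(1 / 2) ^ (b.1 : ℕ) * D.ps b.1 b.2.1 b.2.2 u -
        (1 / 2) ^ (b.1 : ℕ) * D.ps b.1 b.2.1 b.2.2 v|) := by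
    intro b
    exact add_nonneg (Finset.sum_nonneg fun _ _ => abs_nonneg _) (abs_nonneg _)
  refine le_trans ?_ (Finset.single_le_sum (fun b _ => hnn b)
    (mem_univ ((⟨j, hj⟩, θ, ⟨k, hk⟩) : Fin J × Bool × Fin K)))
  simp only
  refine le_trans ?_ (D.E_lower _ _ hr.le _ _ (D.ps_nonneg _ _ _ _) (D.ps_nonneg _ _ _ _) _ _)
  have hps : 1 / 2 ≤ D.ps j θ k u := by
    unfold ps
    rw [gg_one _ _ hr _ h2 h3, mul_one]
    exact h1
  have hlow := D.lower_a (bot ((1 / 2) ^ j) θ k) ((1 / 2) ^ j) u v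
  have hX : ∑ x ∈ R.ancs u \ R.ancs v, D.dl (bot ((1 / 2) ^ j) θ k) ((1 / 2) ^ j) x =
      cl (bot ((1 / 2) ^ j) θ k) ((1 / 2) ^ j) (D.dep u) -
      cl (bot ((1 / 2) ^ j) θ k) ((1 / 2) ^ j) (D.dep z) :=
    hf (fun x => cl (bot ((1 / 2) ^ j) θ k) ((1 / 2) ^ j) (D.dep x))
  rw [hX] at hlow
  have hzu := D.dep_mono hz1
  have hcu : cl (bot ((1 / 2) ^ j) θ k) ((1 / 2) ^ j) (D.dep u) = D.dep u := by
    unfold cl
    rw [min_eq_left (by linarith), max_eq_right (by linarith)]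
  have hcz : cl (bot ((1 / 2) ^ j) θ k) ((1 / 2) ^ j) (D.dep z) ≤
      max (D.dep z) (D.dep u - (1 / 2) ^ j / 4) := by
    unfold cl
    apply max_le
    · exact le_trans (by linarith) (le_max_right _ _)
    · exact le_trans (min_le_left _ _) (le_max_left _ _)
  have hmu : D.m u < 2 * (1 / 2) ^ j := by
    have hne : ph (D.m u / (1 / 2) ^ j) ≠ 0 := by
      intro h; rw [h] at h1; norm_num at h1
    have := (ph_ne _ hne).2
    rwa [div_lt_iff₀ hr] at this
  have hsum : min (D.dep u - D.dep z) (D.m u / 8) ≤ ∑ P,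
      |D.a (bot ((1 / 2) ^ j) θ k) ((1 / 2) ^ j) P u -
        D.a (bot ((1 / 2) ^ j) θ k) ((1 / 2) ^ j) P v| := by
    refine le_trans ?_ hlow
    rw [hcu]
    rcases le_total (D.dep z) (D.dep u - (1 / 2) ^ j / 4) with h | h
    · rw [max_eq_right h] at hcz
      refine le_trans (min_le_right _ _) ?_
      linarith
    · rw [max_eq_left h] at hcz
      refine le_trans (min_le_left _ _) ?_
      linarith
  have hm0 := D.m_nonneg u
  have hmin0 : 0 ≤ min (D.dep u - D.dep z) (D.m u / 8) := le_min (by linarith) (by linarith)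
  calc min ((D.dep u - D.dep z) / 2) (D.m u / 16) ≤ 1 / 2 * min (D.dep u - D.dep z) (D.m u / 8) := by
        rcases le_total (D.dep u - D.dep z) (D.m u / 8) with h | h
        · rw [min_eq_left h]
          refine le_trans (min_le_left _ _) ?_
          linarith
        · rw [min_eq_right h]
          refine le_trans (min_le_right _ _) ?_
          linarith
    _ ≤ _ := mul_le_mul hps hsum hmin0 (D.ps_nonneg _ _ _ _)

theorem Phi_support (J K : ℕ) (v : V) :
    (univ.filter (fun l => D.Phi J K v l ≠ 0)).card ≤ 4 * (((R.ancs v).image D.lab).card + 1) := by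
  classical
  have hsub : univ.filter (fun l => D.Phi J K v l ≠ 0) ⊆
      (D.act J K v) ×ˢ (insert none (((R.ancs v).image D.lab).image some)) := by
    rintro ⟨b, P⟩ hl
    simp only [mem_filter, mem_univ, true_and] at hl
    rw [Finset.mem_product]
    have hb : D.ps b.1 b.2.1 b.2.2 v ≠ 0 := by
      intro hb
      apply hl
      cases P with
      | none => show (1 / 2) ^ (b.1 : ℕ) * D.ps b.1 b.2.1 b.2.2 v = 0; rw [hb, mul_zero]
      | some P =>
        show D.ps b.1 b.2.1 b.2.2 v * _ = 0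
        rw [hb, zero_mul]
    refine ⟨by simp only [act, mem_filter, mem_univ, true_and]; exact hb, ?_⟩
    cases P with
    | none => exact Finset.mem_insert_self _ _
    | some P =>
      apply Finset.mem_insert_of_mem
      apply Finset.mem_image_of_mem
      by_contra hP
      apply hl
      show D.ps b.1 b.2.1 b.2.2 v * D.a _ _ P v = 0
      have : D.a (bot ((1 / 2) ^ (b.1 : ℕ)) b.2.1 b.2.2) ((1 / 2) ^ (b.1 : ℕ)) P v = 0 := by
        unfold a
        apply Finset.sum_eq_zero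
        intro x hx
        rw [if_neg]
        rintro rfl
        exact hP (Finset.mem_image_of_mem _ hx)
      rw [this, mul_zero]
  refine (Finset.card_le_card hsub).trans ?_
  rw [Finset.card_product]
  apply Nat.mul_le_mul (D.card_act J K v)
  refine (Finset.card_insert_le _ _).trans ?_
  apply Nat.add_le_add_right
  exact Finset.card_image_le

/-- the conclusion of this file -/
theorem exists_map : ∃ (L : Type) (_ : Fintype L) (_ : DecidableEq L) (F : V → L → ℝ),
    (∀ v, ∑ l, |F v l| ≤ 16 * D.m v) ∧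
    (∀ v, ∑ l, |F v l - F (R.par v) l| ≤ 104 * (D.dep v - D.dep (R.par v))) ∧
    (∀ u v, ∃ z ∈ R.ancs u, z ∈ R.ancs v ∧
      min ((D.dep u - D.dep z) / 2) (D.m u / 16) ≤ ∑ l, |F u l - F v l|) ∧
    (∀ v, (univ.filter (fun l => F v l ≠ 0)).card ≤ 4 * (((R.ancs v).image D.lab).card + 1)) := by
  have hex : ∀ u, ∃ (j : ℕ) (θ : Bool) (k : ℕ), 0 < D.m u → (1 / 2 ≤ ph (D.m u / (1 / 2) ^ j) ∧
      bot ((1 / 2) ^ j) θ k + (1 / 2) ^ j / 4 ≤ D.dep u ∧
      D.dep u ≤ bot ((1 / 2) ^ j) θ k + 3 * (1 / 2) ^ j / 4) := by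
    intro u
    by_cases hu : 0 < D.m u
    · obtain ⟨j, hj⟩ := exists_scale (D.m u) hu (D.m_le u)
      obtain ⟨θ, k, h1, h2⟩ := exists_band ((1 / 2) ^ j) (D.dep u) (by positivity) (D.dep_nonneg u)
      exact ⟨j, θ, k, fun _ => ⟨hj, h1, h2⟩⟩
    · exact ⟨0, false, 0, fun h => absurd h hu⟩
  choose j θ k hjk using hex
  refine ⟨(Fin (univ.sup j + 1) × Bool × Fin (univ.sup k + 1)) × Option V, inferInstance,
    inferInstance, D.Phi (univ.sup j + 1) (univ.sup k + 1), D.Phi_norm _ _, D.Phi_edge _ _, ?_,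
    D.Phi_support _ _⟩
  intro u v
  by_cases hu : 0 < D.m u
  · obtain ⟨h1, h2, h3⟩ := hjk u hu
    exact D.Phi_lower _ _ u v (j u) (θ u) (k u)
      (Nat.lt_succ_of_le (Finset.le_sup (f := j) (mem_univ u)))
      (Nat.lt_succ_of_le (Finset.le_sup (f := k) (mem_univ u))) h1 h2 h3
  · have hm : D.m u = 0 := le_antisymm (not_lt.mp hu) (D.m_nonneg u)
    refine ⟨R.root, R.root_mem u, R.root_mem v, ?_⟩
    refine le_trans (min_le_right _ _) ?_
    rw [hm]
    simp only [zero_div]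
    exact Finset.sum_nonneg fun _ _ => abs_nonneg _

end TD

end R122PT
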