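import Pool.Agent.R122.PT.Path
import Pool.Agent.R122.PT.Embed
import Pool.Agent.R122.PT.Code

/-!
# Polytree networks embed into `ℓ₁` with constant distortion in polylogarithmic dimension
(helper122, MP_bd47c3_lc)
-/

namespace R122PT

open Finset R122BN

variable {V : Type} [Fintype V] [DecidableEq V]

theorem exists_switch {G : SimpleGraph V} (R : RT G) (neg : V → Bool) :
    ∃ s : V → Bool, ∀ v, v ≠ R.root → s v = xor (neg v) (s (R.par v)) := by
  let sg : ℕ → V → Bool := fun n => Nat.rec (fun _ => false) (fun _ f v => xor (neg v) (f (R.par v))) n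
  have sgs : ∀ n v, sg (n + 1) v = xor (neg v) (sg n (R.par v)) := fun n v => rfl
  refine ⟨fun v => sg (R.h v) v, ?_⟩
  intro v hv
  show sg (R.h v) v = xor (neg v) (sg (R.h (R.par v)) (R.par v))
  rw [← R.h_par v hv, sgs]

theorem dd_le_sum (B : BayesNet V) (u v : V) (α : Bool) :
    dd B.law (co u) (co v) ≤ p1 B.law (co u) α + p1 B.law (co v) α := by
  unfold dd p1
  rw [← Finset.sum_add_distrib]
  apply Finset.sum_le_sum
  intro x _
  have := law_nonneg B x
  unfold co
  cases x u <;> cases x v <;> cases α <;> simp <;> linarith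

theorem dd_le_one (B : BayesNet V) (u v : V) : dd B.law (co u) (co v) ≤ 1 := by
  rw [← law_total B]
  unfold dd
  apply Finset.sum_le_sum
  intro x _
  have := law_nonneg B x
  split_ifs <;> linarith

theorem dd_le_m (B : BayesNet V) (u v : V) :
    dd B.law (co u) (co v) ≤ mu B.law (co u) + mu B.law (co v) +
      |p1 B.law (co u) true - p1 B.law (co v) true| := by
  have h1 := dd_le_sum B u v true
  have h2 := dd_le_sum B u v false
  have h3 := dd_le_one B u v
  have tu := p1_total B u
  have tv := p1_total B v
  have ha := abs_nonneg (p1 B.law (co u) true - p1 B.law (co v) true)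
  have hb := le_abs_self (p1 B.law (co u) true - p1 B.law (co v) true)
  have hc := neg_abs_le (p1 B.law (co u) true - p1 B.law (co v) true)
  unfold mu
  rcases le_total (p1 B.law (co u) true) (p1 B.law (co u) false) with a | a <;>
    rcases le_total (p1 B.law (co v) true) (p1 B.law (co v) false) with b | b
  · rw [min_eq_left a, min_eq_left b]; linarith
  · rw [min_eq_left a, min_eq_right b]; linarith
  · rw [min_eq_right a, min_eq_left b]; linarith
  · rw [min_eq_right a, min_eq_right b]; linarith

theorem p1_sub (B : BayesNet V) (u v : V) :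
    |p1 B.law (co u) true - p1 B.law (co v) true| ≤ dd B.law (co u) (co v) := by
  have h1 := p1_le B.law (law_nonneg B) (co u) (co v) true
  have h2 := p1_le B.law (law_nonneg B) (co v) (co u) true
  rw [dd_comm B.law (co v)] at h2
  rw [abs_le]
  constructor <;> linarith

theorem mu_half (B : BayesNet V) (u : V) : mu B.law (co u) ≤ 1 / 2 := by
  have tu := p1_total B u
  have h1 : mu B.law (co u) ≤ p1 B.law (co u) true := min_le_left _ _
  have h2 : mu B.law (co u) ≤ p1 B.law (co u) false := min_le_right _ _
  linarith

theorem path_sum {L : Type} [Fintype L] (F : V → L → ℝ) (x : ℕ → V) (n : ℕ) :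
    ∑ l, |F (x 0) l - F (x n) l| ≤ ∑ j ∈ range n, ∑ l, |F (x j) l - F (x (j + 1)) l| := by
  induction n with
  | zero => simp
  | succ n ih =>
    rw [Finset.sum_range_succ]
    have : ∑ l, |F (x 0) l - F (x (n + 1)) l| ≤
        ∑ l, |F (x 0) l - F (x n) l| + ∑ l, |F (x n) l - F (x (n + 1)) l| := by
      rw [← Finset.sum_add_distrib]
      apply Finset.sum_le_sum
      intro l _
      exact abs_sub_le _ _ _
    linarith

/-- the main theorem, for one network -/
theorem embed (B : BayesNet V) (hT : B.underlying.IsTree) :
    EmbedsL1 B.dist (1026 * (Nat.log 2 (Fintype.card V) + 2) ^ 4) 852226 := by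
  classical
  obtain ⟨R⟩ := exists_RT hT
  have hw := law_nonneg B
  obtain ⟨s, hs⟩ := exists_switch R (fun v => decide (¬ Pos B.law (co v) (co (R.par v))))
  set X : V → (V → Bool) → Bool := fun v => flp (s v) (co v) with hX
  have hposE : ∀ v, v ≠ R.root → Pos B.law (X v) (X (R.par v)) := by
    intro v hv
    apply Pos_flp
    rw [hs v hv]
    by_cases hp : Pos B.law (co v) (co (R.par v))
    · simp [hp]
    · simp [hp]
  set ell : V → ℝ := fun v => dd B.law (X v) (X (R.par v)) with hell
  have ell0 : ell R.root = 0 := by
    simp only [hell]; rw [R.par_root, dd_self]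
  have elln : ∀ v, 0 ≤ ell v := fun v => dd_nonneg B.law hw _ _
  set dep : V → ℝ := fun v => ∑ x ∈ R.ancs v, ell x with hdep
  have depr : dep R.root = 0 := by
    simp only [hdep]; rw [R.ancs_root, Finset.sum_singleton, ell0]
  have depp : ∀ v, dep v - dep (R.par v) = ell v := by
    intro v
    by_cases hv : v = R.root
    · rw [hv, R.par_root, ell0, sub_self]
    · simp only [hdep]
      rw [R.ancs_step v, Finset.sum_insert (R.not_mem_par hv)]
      ring
  obtain ⟨lab, hlab1, hlab2⟩ := R.exists_lab
  let D : TD R :=
    { dep := dep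
      m := fun v => mu B.law (co v)
      lab := lab
      dep_root := depr
      dep_par := fun v => by have := depp v; have := elln v; linarith
      m_nonneg := fun v => mu_nonneg B.law hw _
      m_le := fun v => mu_half B v
      m_par := fun v => by
        rw [depp v]
        have := mu_sub B.law hw (X v) (X (R.par v))
        simp only [hX, mu_flp] at this
        exact this
      lab_comp := hlab1 }
  obtain ⟨L, hLf, hLd, F, hF1, hF2, hF3, hF4⟩ := D.exists_map
  -- the parameters
  set N := Fintype.card V with hN
  obtain ⟨ℓ, hℓ⟩ : ∃ ℓ, ℓ = Nat.log 2 N + 2 := ⟨_, rfl⟩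
  have hNpos : 0 < N := Fintype.card_pos_iff.mpr ⟨R.root⟩
  obtain ⟨q, hqp, hq1, hq2⟩ := exists_prime ℓ (by omega)
  haveI : Fact q.Prime := ⟨hqp⟩
  have hsupp : ∀ v, (univ.filter (fun l => F v l ≠ 0)).card ≤ 4 * ℓ := by
    intro v
    refine (hF4 v).trans ?_
    apply Nat.mul_le_mul_left
    have h1 : 2 ^ ((R.ancs v).image lab).card ≤ 2 * N := hlab2 v
    have h2 : ((R.ancs v).image lab).card ≤ Nat.log 2 (2 * N) :=
      Nat.le_log_of_pow_le (by norm_num) h1
    have h3 : Nat.log 2 (2 * N) = Nat.log 2 N + 1 := by
      rw [mul_comm, Nat.log_mul_base (by norm_num) hNpos.ne']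
    show ((R.ancs v).image lab).card + 1 ≤ ℓ
    omega
  have hcard : Fintype.card V * (4 * ℓ) ≤ q ^ ℓ := by
    have h1 : N < 2 ^ (Nat.log 2 N + 1) := Nat.lt_pow_succ_log_self (by norm_num) N
    have h2 : q ^ ℓ = q ^ (Nat.log 2 N + 1) * q := by rw [hℓ, ← pow_succ]
    have h3 : 4 * ℓ ≤ q := by nlinarith [Nat.zero_le ℓ]
    have h4 : 2 ^ (Nat.log 2 N + 1) ≤ q ^ (Nat.log 2 N + 1) := Nat.pow_le_pow_left hqp.two_le _
    rw [h2]
    exact Nat.mul_le_mul (h1.le.trans h4) h3
  obtain ⟨G, hG⟩ := compress F (4 * ℓ) ℓ q hsupp (by nlinarith) hcard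
  -- the final map
  set sv : V → ℝ := fun v => if s v then mu B.law (co v) else -mu B.law (co v) with hsv
  have hqR : (0 : ℝ) < q := by exact_mod_cast hqp.pos
  refine embeds_of_type (K := Option (Option (ZMod q × ZMod q))) B.dist _ _ ?_ (q : ℝ) hqR
    (fun v a => match a with
      | none => q * p1 B.law (co v) true
      | some none => q * sv v
      | some (some z) => 64 * G v z) ?_
  · rw [Fintype.card_option, Fintype.card_option, Fintype.card_prod, ZMod.card, ← hℓ]
    have h1 : q * q ≤ (32 * ℓ ^ 2) * (32 * ℓ ^ 2) := Nat.mul_le_mul hq2 hq2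
    have h2 : 1 ≤ ℓ ^ 4 := Nat.one_le_pow _ _ (by omega)
    have h3 : (32 * ℓ ^ 2) * (32 * ℓ ^ 2) = 1024 * ℓ ^ 4 := by ring
    omega
  intro u v
  rw [dist_eq_dd]
  -- the sum
  have hsum : ∑ a : Option (Option (ZMod q × ZMod q)), |(match a with
      | none => q * p1 B.law (co u) true
      | some none => q * sv u
      | some (some z) => 64 * G u z) - (match a with
      | none => q * p1 B.law (co v) true
      | some none => q * sv v
      | some (some z) => 64 * G v z)| =
      q * |p1 B.law (co u) true - p1 B.law (co v) true| + (q * |sv u - sv v| +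
        64 * ∑ z, |G u z - G v z|) := by
    rw [Fintype.sum_option, Fintype.sum_option]
    congr 1
    · show |(q : ℝ) * p1 B.law (co u) true - q * p1 B.law (co v) true| = _
      rw [← mul_sub, abs_mul, abs_of_pos hqR]
    congr 1
    · show |(q : ℝ) * sv u - q * sv v| = _
      rw [← mul_sub, abs_mul, abs_of_pos hqR]
    · rw [Finset.mul_sum]
      apply Finset.sum_congr rfl
      intro z _
      show |64 * G u z - 64 * G v z| = _
      rw [← mul_sub, abs_mul]
      norm_num
  rw [hsum]
  obtain ⟨hG1, hG2⟩ := hG u v
  set Ψ := ∑ l, |F u l - F v l| with hΨ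
  have hd0 := dd_nonneg B.law hw (co u) (co v)
  have hmu0 := mu_nonneg B.law hw (co u)
  have hmv0 := mu_nonneg B.law hw (co v)
  have hdm := dd_le_m B u v
  have hps := p1_sub B u v
  have hms := mu_sub B.law hw (co u) (co v)
  have hΨ0 : 0 ≤ Ψ := Finset.sum_nonneg fun _ _ => abs_nonneg _
  -- distance along the tree
  have htree : ∀ a z, z ∈ R.ancs a → dd B.law (X a) (X z) ≤ dep a - dep z := by
    intro a z hz
    rw [RT.mem_ancs] at hz
    obtain ⟨i, rfl⟩ := hz
    induction i with
    | zero => simp [dd_self]
    | succ i ih =>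
      have h1 := dd_tri B.law hw (X a) (X (R.par^[i] a)) (X (R.par (R.par^[i] a)))
      have h2 := depp (R.par^[i] a)
      rw [Function.iterate_succ_apply']
      simp only [hell] at h2
      linarith
  -- lower bound for Ψ
  have hlow : ∀ a b, dep b ≤ dep a →
      min (dd B.law (X a) (X b) / 4) (mu B.law (co a) / 16) ≤ ∑ l, |F a l - F b l| := by
    intro a b hab
    obtain ⟨z, hz1, hz2, hz⟩ := hF3 a b
    refine le_trans ?_ hz
    apply min_le_min
    · have h1 := htree a z hz1
      have h2 := htree b z hz2
      have h3 := dd_tri B.law hw (X a) (X z) (X b)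
      rw [dd_comm B.law (X b)] at h2
      show dd B.law (X a) (X b) / 4 ≤ (dep a - dep z) / 2
      linarith
    · exact le_refl _
  have hlow' : min (dd B.law (X u) (X v) / 4) (mu B.law (co u) / 16) ≤ Ψ ∨
      min (dd B.law (X u) (X v) / 4) (mu B.law (co v) / 16) ≤ Ψ := by
    rcases le_total (dep v) (dep u) with h | h
    · exact Or.inl (hlow u v h)
    · right
      have := hlow v u h
      rw [dd_comm B.law (X v)] at this
      refine this.trans (le_of_eq ?_)
      apply Finset.sum_congr rfl
      intro l _
      exact abs_sub_comm _ _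
  -- upper bound for Ψ
  have hup1 : Ψ ≤ 16 * mu B.law (co u) + 16 * mu B.law (co v) := by
    have h1 := hF1 u
    have h2 := hF1 v
    have h3 : Ψ ≤ ∑ l, |F u l| + ∑ l, |F v l| := by
      rw [hΨ, ← Finset.sum_add_distrib]
      apply Finset.sum_le_sum
      intro l _
      exact abs_sub _ _
    have h1' : ∑ l, |F u l| ≤ 16 * mu B.law (co u) := h1
    have h2' : ∑ l, |F v l| ≤ 16 * mu B.law (co v) := h2
    linarith
  have hedge : ∀ a b, B.underlying.Adj a b →
      ∑ l, |F a l - F b l| ≤ 104 * dd B.law (X a) (X b) ∧ Pos B.law (X a) (X b) := by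
    intro a b hab
    rcases R.adj_cases a b hab with ⟨h1, rfl⟩ | ⟨h1, rfl⟩
    · constructor
      · have := hF2 a
        have h2 := depp a
        have h3 : ∑ l, |F a l - F (R.par a) l| ≤ 104 * (dep a - dep (R.par a)) := this
        rw [h2] at h3
        exact h3
      · exact hposE a h1
    · constructor
      · have := hF2 b
        have h2 := depp b
        have h3 : ∑ l, |F b l - F (R.par b) l| ≤ 104 * (dep b - dep (R.par b)) := this
        rw [h2] at h3
        rw [dd_comm]
        refine le_trans (le_of_eq ?_) h3
        apply Finset.sum_congr rfl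
        intro l _
        exact abs_sub_comm _ _
      · exact (hposE b h1).symm
  obtain ⟨p, hp⟩ := hT.connected.exists_isPath u v
  have hIsP : IsP B.underlying p.length p.getVert := by
    constructor
    · intro i hi
      exact p.adj_getVert_succ hi
    · intro i j hi hj hij
      exact hp.getVert_injOn (by simpa using hi) (by simpa using hj) hij
  have hkey := key B hT s p.length p.getVert hIsP
    (fun j hj => (hedge _ _ (hIsP.adj j hj)).2)
  rw [SimpleGraph.Walk.getVert_zero, SimpleGraph.Walk.getVert_length] at hkey
  obtain ⟨hk1, hk2⟩ := hkey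
  have hup2 : Ψ ≤ 104 * ∑ j ∈ range p.length, dd B.law (X (p.getVert j)) (X (p.getVert (j + 1))) := by
    have h1 := path_sum F p.getVert p.length
    rw [SimpleGraph.Walk.getVert_zero, SimpleGraph.Walk.getVert_length] at h1
    refine h1.trans ?_
    rw [Finset.mul_sum]
    apply Finset.sum_le_sum
    intro j hj
    rw [Finset.mem_range] at hj
    exact (hedge _ _ (hIsP.adj j hj)).1
  have habs := abs_le.mp hms
  by_cases hsame : s u = s v
  · -- same class
    have hd' : dd B.law (X u) (X v) = dd B.law (co u) (co v) := by
      simp only [hX]; rw [hsame, dd_flp]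
    have hsvuv : |sv u - sv v| = |mu B.law (co u) - mu B.law (co v)| := by
      simp only [hsv]
      rw [hsame]
      cases s v
      · simp only [Bool.false_eq_true, if_false]
        rw [← abs_neg]; congr 1; ring
      · simp
    rw [hd'] at hlow'
    have hm1 := le_abs_self (mu B.law (co u) - mu B.law (co v))
    have hm2 := neg_abs_le (mu B.law (co u) - mu B.law (co v))
    have hlower : dd B.law (co u) (co v) ≤ 32 * Ψ + |mu B.law (co u) - mu B.law (co v)| +
        |p1 B.law (co u) true - p1 B.law (co v) true| := by
      have a1 := abs_nonneg (mu B.law (co u) - mu B.law (co v))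
      have a2 := abs_nonneg (p1 B.law (co u) true - p1 B.law (co v) true)
      rcases hlow' with h | h
      · rcases min_le_iff.mp h with h | h
        · linarith
        · linarith
      · rcases min_le_iff.mp h with h | h
        · linarith
        · linarith
    have hupper : Ψ ≤ 13312 * dd B.law (co u) (co v) := by
      have h1 := hk1 hsame
      rcases min_le_iff.mp h1 with h | h
      · have h2 : Ψ ≤ 104 * (128 * dd B.law (co u) (co v)) := by
          refine hup2.trans ?_
          exact mul_le_mul_of_nonneg_left h (by norm_num)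
        linarith
      · linarith
    rw [hsvuv]
    constructor
    · have := mul_le_mul_of_nonneg_left hlower hqR.le
      nlinarith
    · have e1 := mul_le_mul_of_nonneg_left hupper hqR.le
      have e2 := mul_le_mul_of_nonneg_left hps hqR.le
      have e3 := mul_le_mul_of_nonneg_left hms hqR.le
      nlinarith
  · -- different classes
    have hm1 := hk2 hsame
    have hsvuv : |sv u - sv v| = mu B.law (co u) + mu B.law (co v) := by
      simp only [hsv]
      cases hu : s u <;> cases hv : s v
      · exact absurd (hu.trans hv.symm) hsame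
      · simp only [Bool.false_eq_true, if_false, if_true]
        rw [abs_of_nonpos (by linarith)]; ring
      · simp only [Bool.false_eq_true, if_false, if_true]
        rw [abs_of_nonneg (by linarith)]; ring
      · exact absurd (hu.trans hv.symm) hsame
    have hmv : mu B.law (co v) ≤ 129 * dd B.law (co u) (co v) := by linarith
    have hupper : Ψ ≤ 13312 * dd B.law (co u) (co v) := by linarith
    have hsv2 : mu B.law (co u) + mu B.law (co v) ≤ 257 * dd B.law (co u) (co v) := by linarith
    rw [hsvuv]
    have hGn : 0 ≤ ∑ z, |G u z - G v z| := Finset.sum_nonneg fun _ _ => abs_nonneg _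
    constructor
    · have := mul_le_mul_of_nonneg_left hdm hqR.le
      nlinarith
    · have e1 := mul_le_mul_of_nonneg_left hupper hqR.le
      have e2 := mul_le_mul_of_nonneg_left hps hqR.le
      have e3 := mul_le_mul_of_nonneg_left hsv2 hqR.le
      nlinarith

end R122PT
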