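import Pool.Agent.R122.PT.Prob
import Pool.Agent.R122.BN.Defs

/-!
# Conditional independences and independences in a Bayesian network, by swapping
(helper122, MP_bd47c3_lc)
-/

namespace R122PT

open Finset R122BN

variable {V : Type} [Fintype V] [DecidableEq V]

/-- the coordinate -/
def co (v : V) : (V → Bool) → Bool := fun x => x v

theorem dist_eq_dd (B : BayesNet V) (i j : V) : B.dist i j = dd B.law (co i) (co j) := rfl

theorem law_nonneg (B : BayesNet V) (x : V → Bool) : 0 ≤ B.law x :=
  Finset.prod_nonneg fun v _ => B.cpd_nonneg v x _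

def mix (R : V → Prop) [DecidablePred R] (x y : V → Bool) : V → Bool :=
  fun v => if R v then y v else x v

theorem sum_swap (R : V → Prop) [DecidablePred R] (F : (V → Bool) → (V → Bool) → ℝ) :
    ∑ x, ∑ y, F x y = ∑ x, ∑ y, F (mix R x y) (mix R y x) := by
  have hinv : Function.Involutive
      (fun p : (V → Bool) × (V → Bool) => (mix R p.1 p.2, mix R p.2 p.1)) := by
    rintro ⟨x, y⟩
    ext v
    · simp only [mix]; split_ifs <;> rfl
    · simp only [mix]; split_ifs <;> rfl
  have h := Equiv.sum_comp hinv.toPerm (fun p => F p.1 p.2)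
  rw [Fintype.sum_prod_type, Fintype.sum_prod_type] at h
  exact h.symm

theorem law_swap (B : BayesNet V) (R : V → Prop) [DecidablePred R] (a : V)
    (h1 : ∀ x y, x ∈ B.par y → R x → R y) (h2 : ∀ x y, x ∈ B.par y → ¬ R x → R y → x = a)
    (x y : V → Bool) (hxy : x a = y a) :
    B.law (mix R x y) * B.law (mix R y x) = B.law x * B.law y := by
  unfold BayesNet.law
  rw [← prod_mul_distrib, ← prod_mul_distrib]
  apply prod_congr rfl
  intro v _
  by_cases hv : R v
  · have e1 : B.cpd v (mix R x y) = B.cpd v y := by
      apply B.cpd_par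
      intro u hu
      by_cases hu' : R u
      · simp [mix, hu']
      · have := h2 u v hu hu' hv
        subst this
        simp [mix, hu', hxy]
    have e2 : B.cpd v (mix R y x) = B.cpd v x := by
      apply B.cpd_par
      intro u hu
      by_cases hu' : R u
      · simp [mix, hu']
      · have := h2 u v hu hu' hv
        subst this
        simp [mix, hu', hxy]
    have e3 : mix R x y v = y v := by simp [mix, hv]
    have e4 : mix R y x v = x v := by simp [mix, hv]
    rw [e1, e2, e3, e4]; ring
  · have hpar : ∀ u ∈ B.par v, ¬ R u := fun u hu hR => hv (h1 u v hu hR)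
    have e1 : B.cpd v (mix R x y) = B.cpd v x := by
      apply B.cpd_par
      intro u hu
      simp [mix, hpar u hu]
    have e2 : B.cpd v (mix R y x) = B.cpd v y := by
      apply B.cpd_par
      intro u hu
      simp [mix, hpar u hu]
    have e3 : mix R x y v = x v := by simp [mix, hv]
    have e4 : mix R y x v = y v := by simp [mix, hv]
    rw [e1, e2, e3, e4]

theorem CI_of_swap (D : (V → Bool) → ℝ) (R : V → Prop) [DecidablePred R] (a i k : V)
    (hi : ¬ R i) (hk : R k) (ha : ¬ R a)
    (hD : ∀ x y : V → Bool, x a = y a → D (mix R x y) * D (mix R y x) = D x * D y) :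
    CI D (co i) (co a) (co k) := by
  intro α β γ
  unfold p3 p1 p2
  rw [Finset.sum_mul_sum, Finset.sum_mul_sum]
  rw [sum_swap R (fun x y : V → Bool => (if co i x = α ∧ co a x = β then D x else 0) *
    (if co a y = β ∧ co k y = γ then D y else 0))]
  apply Finset.sum_congr rfl
  intro x _
  apply Finset.sum_congr rfl
  intro y _
  have e1 : co i (mix R x y) = x i := by simp [co, mix, hi]
  have e2 : co a (mix R x y) = x a := by simp [co, mix, ha]
  have e3 : co a (mix R y x) = y a := by simp [co, mix, ha]
  have e4 : co k (mix R y x) = x k := by simp [co, mix, hk]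
  have f1 : co i x = x i := rfl
  have f2 : co a x = x a := rfl
  have f3 : co k x = x k := rfl
  have f4 : co a y = y a := rfl
  rw [e1, e2, e3, e4, f1, f2, f3, f4]
  by_cases h1 : x i = α
  · by_cases h2 : x a = β
    · by_cases h3 : x k = γ
      · by_cases h4 : y a = β
        · simp only [h1, h2, h3, h4, and_self, if_true]
          exact (hD x y (h2.trans h4.symm)).symm
        · simp [h4]
      · simp [h3]
    · simp [h2]
  · simp [h1]

theorem CI_net (B : BayesNet V) (R : V → Prop) [DecidablePred R] (a i k : V)
    (h1 : ∀ x y, x ∈ B.par y → R x → R y) (h2 : ∀ x y, x ∈ B.par y → ¬ R x → R y → x = a)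
    (hi : ¬ R i) (hk : R k) (ha : ¬ R a) : CI B.law (co i) (co a) (co k) :=
  CI_of_swap B.law R a i k hi hk ha (law_swap B R a h1 h2)

/-- the network restricted to an ancestral set, the other vertices being fair coins -/
noncomputable def res (B : BayesNet V) (A : Finset V) (x : V → Bool) : ℝ :=
  ∏ v, if v ∈ A then B.cpd v x (x v) else 1 / 2

def Anc (B : BayesNet V) (A : Finset V) : Prop := ∀ v ∈ A, B.par v ⊆ A

theorem exists_source (B : BayesNet V) (A : Finset V) (hA : A ≠ univ) :
    ∃ v, v ∉ A ∧ B.par v ⊆ A := by
  classical
  have : IsTrans V (Relation.TransGen (fun a b => a ∈ B.par b)) := inferInstance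
  have hirr : Std.Irrefl (Relation.TransGen (fun a b => a ∈ B.par b)) := ⟨B.acyclic⟩
  have wf : WellFounded (Relation.TransGen (fun a b => a ∈ B.par b)) :=
    Finite.wellFounded_of_trans_of_irrefl _
  have hne : ({v | v ∉ A} : Set V).Nonempty := by
    by_contra hcon
    rw [Set.not_nonempty_iff_eq_empty] at hcon
    apply hA
    ext v
    simp only [mem_univ, iff_true]
    by_contra hv
    have : v ∈ ({v | v ∉ A} : Set V) := hv
    rw [hcon] at this
    exact this
  refine ⟨wf.min _ hne, wf.min_mem _ hne, ?_⟩
  intro u hu
  by_contra hu'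
  exact wf.not_lt_min _ (show u ∈ ({v | v ∉ A} : Set V) from hu') (Relation.TransGen.single hu)

theorem sum_flip (v : V) (F : (V → Bool) → ℝ) :
    ∑ x, F x = ∑ x, F (Function.update x v (!(x v))) := by
  have hinv : Function.Involutive
      (fun x : V → Bool => Function.update x v (!(x v))) := by
    intro x
    ext u
    by_cases h : u = v
    · subst h; simp
    · simp [h]
  exact (Equiv.sum_comp hinv.toPerm F).symm

theorem res_step (B : BayesNet V) (A : Finset V) (hA : Anc B A) (v : V) (hv : v ∉ A)
    (hp : B.par v ⊆ A) (g : (V → Bool) → ℝ) (hg : ∀ x b, g (Function.update x v b) = g x) :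
    ∑ x, res B (insert v A) x * g x = ∑ x, res B A x * g x := by
  have hrest : ∀ x : V → Bool, ∀ b, ∀ w ∈ univ.erase v,
      (if w ∈ insert v A then B.cpd w (Function.update x v b) (Function.update x v b w) else 1 / 2)
      = (if w ∈ insert v A then B.cpd w x (x w) else (1 / 2 : ℝ)) := by
    intro x b w hw
    have hwv : w ≠ v := (Finset.mem_erase.mp hw).1
    by_cases hwA : w ∈ A
    · rw [if_pos (mem_insert_of_mem hwA), if_pos (mem_insert_of_mem hwA)]
      rw [Function.update_of_ne hwv]
      rw [B.cpd_par w (Function.update x v b) x]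
      intro u hu
      rw [Function.update_of_ne]
      rintro rfl
      exact hv (hA w hwA hu)
    · rw [if_neg, if_neg] <;> simp [hwA, hwv]
  have hsum : ∀ x : V → Bool, res B (insert v A) x +
      res B (insert v A) (Function.update x v (!(x v))) = 2 * res B A x := by
    intro x
    unfold res
    rw [← Finset.mul_prod_erase univ _ (mem_univ v), ← Finset.mul_prod_erase univ _ (mem_univ v),
      ← Finset.mul_prod_erase univ (fun w => if w ∈ A then B.cpd w x (x w) else (1 / 2 : ℝ))
        (mem_univ v)]
    rw [Finset.prod_congr rfl (hrest x (!(x v)))]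
    rw [if_pos (mem_insert_self v A), if_pos (mem_insert_self v A), if_neg hv]
    have hpe : ∏ w ∈ univ.erase v, (if w ∈ insert v A then B.cpd w x (x w) else (1 / 2 : ℝ)) =
        ∏ w ∈ univ.erase v, (if w ∈ A then B.cpd w x (x w) else (1 / 2 : ℝ)) := by
      apply Finset.prod_congr rfl
      intro w hw
      have hwv : w ≠ v := (Finset.mem_erase.mp hw).1
      simp [hwv]
    rw [hpe]
    have hc : B.cpd v (Function.update x v (!(x v))) = B.cpd v x := by
      apply B.cpd_par
      intro u hu
      rw [Function.update_of_ne]
      rintro rfl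
      exact hv (hp hu)
    rw [hc, Function.update_self]
    have hs := B.cpd_sum v x
    have hs' : B.cpd v x (x v) + B.cpd v x (!(x v)) = 1 := by
      cases x v
      · simpa [add_comm] using hs
      · simpa using hs
    rw [← add_mul, hs']
    ring
  have h2 : 2 * ∑ x, res B (insert v A) x * g x = 2 * ∑ x, res B A x * g x := by
    rw [two_mul]
    nth_rewrite 2 [sum_flip v]
    rw [← Finset.sum_add_distrib, Finset.mul_sum]
    apply Finset.sum_congr rfl
    intro x _
    rw [hg, ← add_mul, hsum]
    ring
  linarith

theorem res_marg (B : BayesNet V) (n : ℕ) : ∀ (A : Finset V), Anc B A → (univ \ A).card = n →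
    ∀ (g : (V → Bool) → ℝ), (∀ x y : V → Bool, (∀ v ∈ A, x v = y v) → g x = g y) →
    ∑ x, B.law x * g x = ∑ x, res B A x * g x := by
  induction n with
  | zero =>
    intro A hA hn g hg
    have hA' : A = univ := by
      rw [Finset.card_eq_zero] at hn
      ext v
      simp only [mem_univ, iff_true]
      by_contra hv
      have : v ∈ univ \ A := by simp [hv]
      rw [hn] at this
      simp at this
    subst hA'
    unfold res BayesNet.law
    simp
  | succ n ih =>
    intro A hA hn g hg
    have hne : A ≠ univ := by
      rintro rfl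
      simp at hn
    obtain ⟨v, hv, hp⟩ := exists_source B A hne
    rw [← res_step B A hA v hv hp g]
    · apply ih (insert v A)
      · intro u hu
        rw [Finset.mem_insert] at hu
        rcases hu with rfl | hu
        · exact hp.trans (Finset.subset_insert _ _)
        · exact (hA u hu).trans (Finset.subset_insert _ _)
      · have : univ \ insert v A = (univ \ A).erase v := by
          ext u; simp
        rw [this, Finset.card_erase_of_mem (by simp [hv])]
        omega
      · intro x y hxy
        apply hg
        intro u hu
        exact hxy u (Finset.mem_insert_of_mem hu)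
    · intro x b
      apply hg
      intro u hu
      rw [Function.update_of_ne]
      rintro rfl
      exact hv hu

theorem res_empty (B : BayesNet V) : ∑ x, res B ∅ x = 1 := by
  unfold res
  simp

theorem law_total (B : BayesNet V) : ∑ x, B.law x = 1 := by
  have := res_marg B _ ∅ (by intro v hv; simp at hv) rfl (fun _ => 1) (by intros; rfl)
  simpa [res_empty B] using this

theorem p1_total (B : BayesNet V) (v : V) : p1 B.law (co v) true + p1 B.law (co v) false = 1 := by
  rw [← law_total B]
  unfold p1
  rw [← Finset.sum_add_distrib]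
  apply Finset.sum_congr rfl
  intro x _
  unfold co
  cases x v <;> simp

theorem indep (B : BayesNet V) (S T : Finset V) (hS : Anc B S) (hT : Anc B T)
    (hST : ∀ v ∈ S, v ∉ T) (u v : V) (hu : u ∈ S) (hv : v ∈ T) (α β : Bool) :
    p2 B.law (co u) (co v) α β = p1 B.law (co u) α * p1 B.law (co v) β := by
  have hA : Anc B (S ∪ T) := by
    intro x hx
    rw [Finset.mem_union] at hx
    rcases hx with hx | hx
    · exact (hS x hx).trans Finset.subset_union_left
    · exact (hT x hx).trans Finset.subset_union_right
  have hu' : u ∈ S ∪ T := Finset.mem_union_left _ hu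
  have hv' : v ∈ S ∪ T := Finset.mem_union_right _ hv
  set D := res B (S ∪ T) with hD
  have e1 : ∀ w ∈ S ∪ T, ∀ γ, p1 B.law (co w) γ = p1 D (co w) γ := by
    intro w hw γ
    have := res_marg B _ (S ∪ T) hA rfl (fun x => if x w = γ then 1 else 0) (by
      intro x y hxy
      simp only [hxy w hw])
    refine (Finset.sum_congr rfl ?_).trans (this.trans (Finset.sum_congr rfl ?_))
    · intro x _
      show (if x w = γ then B.law x else 0) = B.law x * (if x w = γ then 1 else 0)
      split_ifs <;> simp
    · intro x _
      show D x * (if x w = γ then 1 else 0) = (if x w = γ then D x else 0)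
      split_ifs <;> simp
  have e2 : p2 B.law (co u) (co v) α β = p2 D (co u) (co v) α β := by
    have := res_marg B _ (S ∪ T) hA rfl (fun x => if x u = α ∧ x v = β then 1 else 0) (by
      intro x y hxy
      simp only [hxy u hu', hxy v hv'])
    refine (Finset.sum_congr rfl ?_).trans (this.trans (Finset.sum_congr rfl ?_))
    · intro x _
      show (if x u = α ∧ x v = β then B.law x else 0) =
        B.law x * (if x u = α ∧ x v = β then 1 else 0)
      split_ifs <;> simp
    · intro x _
      show D x * (if x u = α ∧ x v = β then 1 else 0) = (if x u = α ∧ x v = β then D x else 0)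
      split_ifs <;> simp
  have e3 : ∑ x, D x = 1 := by
    have := res_marg B _ (S ∪ T) hA rfl (fun _ => 1) (by intros; rfl)
    simp only [mul_one] at this
    rw [hD, ← this, law_total]
  have hsw : ∀ x y : V → Bool, D (mix (fun w => w ∈ S) x y) * D (mix (fun w => w ∈ S) y x) =
      D x * D y := by
    intro x y
    rw [hD]
    unfold res
    rw [← prod_mul_distrib, ← prod_mul_distrib]
    apply prod_congr rfl
    intro w _
    by_cases hwS : w ∈ S
    · have hwA : w ∈ S ∪ T := Finset.mem_union_left _ hwS
      rw [if_pos hwA, if_pos hwA, if_pos hwA, if_pos hwA]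
      have f1 : B.cpd w (mix (fun w => w ∈ S) x y) = B.cpd w y := by
        apply B.cpd_par
        intro z hz
        have := hS w hwS hz
        simp [mix, this]
      have f2 : B.cpd w (mix (fun w => w ∈ S) y x) = B.cpd w x := by
        apply B.cpd_par
        intro z hz
        have := hS w hwS hz
        simp [mix, this]
      have f3 : mix (fun w => w ∈ S) x y w = y w := by simp [mix, hwS]
      have f4 : mix (fun w => w ∈ S) y x w = x w := by simp [mix, hwS]
      rw [f1, f2, f3, f4]; ring
    · by_cases hwT : w ∈ T
      · have hwA : w ∈ S ∪ T := Finset.mem_union_right _ hwT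
        rw [if_pos hwA, if_pos hwA, if_pos hwA, if_pos hwA]
        have f1 : B.cpd w (mix (fun w => w ∈ S) x y) = B.cpd w x := by
          apply B.cpd_par
          intro z hz
          have h1 := hT w hwT hz
          have : z ∉ S := fun h => hST z h h1
          simp [mix, this]
        have f2 : B.cpd w (mix (fun w => w ∈ S) y x) = B.cpd w y := by
          apply B.cpd_par
          intro z hz
          have h1 := hT w hwT hz
          have : z ∉ S := fun h => hST z h h1
          simp [mix, this]
        have f3 : mix (fun w => w ∈ S) x y w = x w := by simp [mix, hwS]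
        have f4 : mix (fun w => w ∈ S) y x w = y w := by simp [mix, hwS]
        rw [f1, f2, f3, f4]
      · have hwA : w ∉ S ∪ T := by simp [hwS, hwT]
        rw [if_neg hwA, if_neg hwA, if_neg hwA, if_neg hwA]
  rw [e2, e1 u hu', e1 v hv']
  rw [← mul_one (p2 D (co u) (co v) α β), ← e3]
  unfold p1 p2
  rw [Finset.sum_mul_sum, Finset.sum_mul_sum]
  rw [sum_swap (fun w => w ∈ S) (fun x y : V → Bool => (if co u x = α then D x else 0) *
    (if co v y = β then D y else 0))]
  rw [Finset.sum_comm]
  apply Finset.sum_congr rfl
  intro x _
  apply Finset.sum_congr rfl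
  intro y _
  have hvS : v ∉ S := fun h => hST v h hv
  have g1 : co u (mix (fun w => w ∈ S) x y) = y u := by simp [co, mix, hu]
  have g2 : co v (mix (fun w => w ∈ S) y x) = y v := by simp [co, mix, hvS]
  rw [g1, g2]
  have g3 : co u y = y u := rfl
  have g4 : co v y = y v := rfl
  rw [g3, g4]
  by_cases h1 : y u = α
  · by_cases h2 : y v = β
    · simp only [h1, h2, and_self, if_true]
      rw [hsw x y]; ring
    · simp [h2]
  · simp [h1]

theorem dd_indep (B : BayesNet V) (S T : Finset V) (hS : Anc B S) (hT : Anc B T)
    (hST : ∀ v ∈ S, v ∉ T) (u v : V) (hu : u ∈ S) (hv : v ∈ T) :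
    mu B.law (co u) ≤ dd B.law (co u) (co v) := by
  rw [dd_eq, indep B S T hS hT hST u v hu hv, indep B S T hS hT hST u v hu hv]
  have h1 := p1_total B v
  have n1 := p1_nonneg B.law (law_nonneg B) (co v) true
  have n2 := p1_nonneg B.law (law_nonneg B) (co v) false
  have m1 : mu B.law (co u) ≤ p1 B.law (co u) true := min_le_left _ _
  have m2 : mu B.law (co u) ≤ p1 B.law (co u) false := min_le_right _ _
  have k1 := mul_le_mul_of_nonneg_right m1 n2
  have k2 := mul_le_mul_of_nonneg_right m2 n1
  have k3 : mu B.law (co u) * p1 B.law (co v) true + mu B.law (co u) * p1 B.law (co v) false =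
      mu B.law (co u) := by rw [← mul_add, h1, mul_one]
  linarith

end R122PT
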