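import Pool.Agent.R122.PT.Net

/-!
# Paths in a polytree network
(helper122, MP_bd47c3_lc)
-/

namespace R122PT

open Finset R122BN

section sides

variable {V : Type} {G : SimpleGraph V}

/-- the side of `b` when the edge `ab` is deleted -/
def side (G : SimpleGraph V) (a b w : V) : Prop :=
  (G \ SimpleGraph.fromEdgeSet {s(a, b)}).Reachable b w

theorem side_self (a b : V) : side G a b b := SimpleGraph.Reachable.refl _

theorem not_side (hG : G.IsAcyclic) {a b : V} (hab : G.Adj a b) : ¬ side G a b a := by
  have h := (SimpleGraph.isAcyclic_iff_forall_adj_isBridge.mp hG) hab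
  rw [SimpleGraph.isBridge_iff] at h
  intro h'
  first
    | exact h.2 h'.symm
    | exact h h'.symm

theorem side_cross (hG : G.IsAcyclic) {a b : V} (hab : G.Adj a b) {x y : V} (hxy : G.Adj x y)
    (hx : side G a b x) (hy : ¬ side G a b y) : x = b ∧ y = a := by
  by_cases h : s(x, y) = s(a, b)
  · rw [Sym2.eq_iff] at h
    rcases h with ⟨rfl, rfl⟩ | ⟨rfl, rfl⟩
    · exact absurd hx (not_side hG hab)
    · exact ⟨rfl, rfl⟩
  · exfalso
    apply hy
    refine SimpleGraph.Reachable.trans hx (SimpleGraph.Adj.reachable ?_)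
    rw [SimpleGraph.sdiff_adj, SimpleGraph.fromEdgeSet_adj]
    exact ⟨hxy, fun hh => h (by simpa using hh.1)⟩

structure IsP (G : SimpleGraph V) (m : ℕ) (x : ℕ → V) : Prop where
  adj : ∀ i, i < m → G.Adj (x i) (x (i + 1))
  inj : ∀ i j, i ≤ m → j ≤ m → x i = x j → i = j

theorem IsP.fwd {m : ℕ} {x : ℕ → V} (hx : IsP G m x) (hG : G.IsAcyclic) {j : ℕ} (hj : j < m) :
    ∀ n, j + 1 + n ≤ m → side G (x j) (x (j + 1)) (x (j + 1 + n)) := by
  intro n
  induction n with
  | zero => intro _; exact side_self _ _
  | succ n ih =>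
    intro hn
    have h1 := ih (by omega)
    by_contra hcon
    have := side_cross hG (hx.adj j hj) (hx.adj (j + 1 + n) (by omega)) h1 hcon
    have := hx.inj _ _ (by omega) (by omega) this.2
    omega

theorem IsP.fwd_not {m : ℕ} {x : ℕ → V} (hx : IsP G m x) (hG : G.IsAcyclic) {j : ℕ}
    (hj : j < m) : ∀ n, n ≤ j → ¬ side G (x j) (x (j + 1)) (x (j - n)) := by
  intro n
  induction n with
  | zero => intro _; exact not_side hG (hx.adj j hj)
  | succ n ih =>
    intro hn hcon
    have h1 := ih (by omega)
    have ha := hx.adj (j - (n + 1)) (by omega)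
    rw [show j - (n + 1) + 1 = j - n by omega] at ha
    have := side_cross hG (hx.adj j hj) ha hcon h1
    have := hx.inj _ _ (by omega) (by omega) this.1
    omega

theorem IsP.bwd {m : ℕ} {x : ℕ → V} (hx : IsP G m x) (hG : G.IsAcyclic) {j : ℕ} (hj : j < m) :
    ∀ n, n ≤ j → side G (x (j + 1)) (x j) (x (j - n)) := by
  intro n
  induction n with
  | zero => intro _; exact side_self _ _
  | succ n ih =>
    intro hn
    have h1 := ih (by omega)
    by_contra hcon
    have ha := hx.adj (j - (n + 1)) (by omega)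
    rw [show j - (n + 1) + 1 = j - n by omega] at ha
    have := side_cross hG (hx.adj j hj).symm ha.symm h1 hcon
    have := hx.inj _ _ (by omega) (by omega) this.2
    omega

theorem IsP.bwd_not {m : ℕ} {x : ℕ → V} (hx : IsP G m x) (hG : G.IsAcyclic) {j : ℕ}
    (hj : j < m) : ∀ n, j + 1 + n ≤ m → ¬ side G (x (j + 1)) (x j) (x (j + 1 + n)) := by
  intro n
  induction n with
  | zero => intro _; exact not_side hG (hx.adj j hj).symm
  | succ n ih =>
    intro hn hcon
    have h1 := ih (by omega)
    have ha := hx.adj (j + 1 + n) (by omega)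
    have := side_cross hG (hx.adj j hj).symm ha.symm hcon h1
    have := hx.inj _ _ (by omega) (by omega) this.1
    omega

theorem IsP.fwd' {m : ℕ} {x : ℕ → V} (hx : IsP G m x) (hG : G.IsAcyclic) {j i : ℕ} (hj : j < i)
    (hi : i ≤ m) : side G (x j) (x (j + 1)) (x i) := by
  have := hx.fwd hG (j := j) (by omega) (i - (j + 1)) (by omega)
  rwa [show j + 1 + (i - (j + 1)) = i by omega] at this

theorem IsP.fwd_not' {m : ℕ} {x : ℕ → V} (hx : IsP G m x) (hG : G.IsAcyclic) {j i : ℕ}
    (hj : j < m) (hi : i ≤ j) : ¬ side G (x j) (x (j + 1)) (x i) := by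
  have := hx.fwd_not hG hj (j - i) (by omega)
  rwa [show j - (j - i) = i by omega] at this

theorem IsP.bwd' {m : ℕ} {x : ℕ → V} (hx : IsP G m x) (hG : G.IsAcyclic) {j i : ℕ}
    (hj : j < m) (hi : i ≤ j) : side G (x (j + 1)) (x j) (x i) := by
  have := hx.bwd hG hj (j - i) (by omega)
  rwa [show j - (j - i) = i by omega] at this

theorem IsP.bwd_not' {m : ℕ} {x : ℕ → V} (hx : IsP G m x) (hG : G.IsAcyclic) {j i : ℕ}
    (hj : j < i) (hi : i ≤ m) : ¬ side G (x (j + 1)) (x j) (x i) := by
  have := hx.bwd_not hG (j := j) (by omega) (i - (j + 1)) (by omega)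
  rwa [show j + 1 + (i - (j + 1)) = i by omega] at this

theorem closed_univ (hG : G.Connected) (P : V → Prop) (hP : ∀ x y, G.Adj x y → P x → P y)
    (w : V) (hw : P w) (v : V) : P v := by
  obtain ⟨p⟩ := hG.preconnected w v
  induction p with
  | nil => exact hw
  | cons h _ ih => exact ih (hP _ _ h hw)

end sides

variable {V : Type} [Fintype V] [DecidableEq V]

theorem not_both (B : BayesNet V) {a b : V} (h1 : a ∈ B.par b) (h2 : b ∈ B.par a) : False :=
  B.acyclic a ((Relation.TransGen.single h1).tail h2)

theorem adj_of_par (B : BayesNet V) {a b : V} (h : a ∈ B.par b) : B.underlying.Adj a b :=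
  ⟨fun h' => by subst h'; exact not_both B h h, Or.inl h⟩

/-- a side whose edge points into it separates -/
theorem CI_side (B : BayesNet V) (hT : B.underlying.IsTree) {a b i k : V} (hab : a ∈ B.par b)
    (hi : ¬ side B.underlying a b i) (hk : side B.underlying a b k) :
    CI B.law (co i) (co a) (co k) := by
  classical
  have hA := hT.isAcyclic
  have hadj := adj_of_par B hab
  refine CI_net B (side B.underlying a b) a i k ?_ ?_ hi hk (not_side hA hadj)
  · intro x y hxy hx
    by_contra hy
    obtain ⟨rfl, rfl⟩ := side_cross hA hadj (adj_of_par B hxy) hx hy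
    exact not_both B hab hxy
  · intro x y hxy hx hy
    exact (side_cross hA hadj (adj_of_par B hxy).symm hy hx).2

/-- a side whose edge points out of it is ancestral -/
theorem anc_side (B : BayesNet V) (hT : B.underlying.IsTree) {a b : V} (hab : b ∈ B.par a)
    (S : Finset V) (hS : ∀ w, w ∈ S ↔ side B.underlying a b w) : Anc B S := by
  intro v hv u hu
  rw [hS] at hv ⊢
  by_contra hcon
  have hA := hT.isAcyclic
  obtain ⟨rfl, rfl⟩ := side_cross hA (adj_of_par B hab).symm (adj_of_par B hu).symm hv hcon
  exact not_both B hab hu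

theorem net_path (B : BayesNet V) (hT : B.underlying.IsTree) (m : ℕ) (x : ℕ → V)
    (hx : IsP B.underlying m x) :
    (∀ i j k, i ≤ j → j ≤ k → k ≤ m → CI B.law (co (x i)) (co (x j)) (co (x k))) ∨
    mu B.law (co (x 0)) ≤ dd B.law (co (x 0)) (co (x m)) := by
  classical
  have hA := hT.isAcyclic
  by_cases hcol : ∃ j, 0 < j ∧ j < m ∧ x (j - 1) ∈ B.par (x j) ∧ x (j + 1) ∈ B.par (x j)
  · right
    obtain ⟨j, hj0, hjm, h1, h2⟩ := hcol
    obtain ⟨j, rfl⟩ : ∃ j', j = j' + 1 := ⟨j - 1, by omega⟩
    simp only [Nat.add_sub_cancel] at h1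
    set S := univ.filter (fun w => side B.underlying (x (j + 1)) (x j) w) with hS
    set T := univ.filter (fun w => side B.underlying (x (j + 1)) (x (j + 1 + 1)) w) with hT'
    have hSm : ∀ w, w ∈ S ↔ side B.underlying (x (j + 1)) (x j) w := by simp [hS]
    have hTm : ∀ w, w ∈ T ↔ side B.underlying (x (j + 1)) (x (j + 1 + 1)) w := by simp [hT']
    refine dd_indep B S T (anc_side B hT h1 S hSm) (anc_side B hT h2 T hTm) ?_ (x 0) (x m)
      ((hSm _).2 (hx.bwd' hA (by omega) (by omega))) ((hTm _).2 (hx.fwd' hA (by omega) (by omega)))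
    intro v hvS hvT
    rw [hSm] at hvS
    rw [hTm] at hvT
    have hall := closed_univ hT.connected
      (fun w => side B.underlying (x (j + 1)) (x j) w ∧
        side B.underlying (x (j + 1)) (x (j + 1 + 1)) w) (by
        rintro a b hab ⟨ha1, ha2⟩
        constructor
        · by_contra hcon
          obtain ⟨rfl, rfl⟩ := side_cross hA (hx.adj j (by omega)).symm hab ha1 hcon
          exact hx.fwd_not' hA (j := j + 1) (i := j) (by omega) (by omega) ha2
        · by_contra hcon
          obtain ⟨rfl, rfl⟩ := side_cross hA (hx.adj (j + 1) (by omega)) hab ha2 hcon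
          exact hx.bwd_not' hA (j := j) (i := j + 1 + 1) (by omega) (by omega) ha1) v ⟨hvS, hvT⟩
      (x (j + 1))
    exact not_side hA (hx.adj j (by omega)).symm hall.1
  · left
    intro i j k hij hjk hkm
    rcases Nat.eq_or_lt_of_le hij with rfl | hij'
    · exact CI_left _ _ _
    rcases Nat.eq_or_lt_of_le hjk with rfl | hjk'
    · exact CI_right _ _ _
    by_cases h2 : x (j + 1) ∈ B.par (x j)
    · have h1 : x (j - 1) ∉ B.par (x j) := fun h => hcol ⟨j, by omega, by omega, h, h2⟩
      obtain ⟨j, rfl⟩ : ∃ j', j = j' + 1 := ⟨j - 1, by omega⟩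
      simp only [Nat.add_sub_cancel] at h1
      have h3 : x (j + 1) ∈ B.par (x j) := by
        rcases (hx.adj j (by omega)).2 with h | h
        · exact absurd h h1
        · exact h
      exact (CI_side B hT h3 (hx.bwd_not' hA (by omega) (by omega))
        (hx.bwd' hA (by omega) (by omega))).symm
    · have h3 : x j ∈ B.par (x (j + 1)) := by
        rcases (hx.adj j (by omega)).2 with h | h
        · exact h
        · exact absurd h h2
      exact CI_side B hT h3 (hx.fwd_not' hA (by omega) (by omega))
        (hx.fwd' hA (by omega) (by omega))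

/-! ### switching -/

/-- flip a variable if `b` holds -/
def flp {Ω : Type} (b : Bool) (X : Ω → Bool) : Ω → Bool := fun ω => xor (X ω) b

section flips

variable {Ω : Type} [Fintype Ω] (w : Ω → ℝ)

theorem flp_iff (b x α : Bool) : (xor x b = α) ↔ (x = xor α b) := by
  cases b <;> cases x <;> cases α <;> simp

theorem p1_flp (X : Ω → Bool) (b α : Bool) : p1 w (flp b X) α = p1 w X (xor α b) := by
  unfold p1 flp
  simp only [flp_iff]

theorem p2_flp (X Y : Ω → Bool) (b c α β : Bool) :
    p2 w (flp b X) (flp c Y) α β = p2 w X Y (xor α b) (xor β c) := by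
  unfold p2 flp
  simp only [flp_iff]

theorem p3_flp (X Y Z : Ω → Bool) (b c d α β γ : Bool) :
    p3 w (flp b X) (flp c Y) (flp d Z) α β γ = p3 w X Y Z (xor α b) (xor β c) (xor γ d) := by
  unfold p3 flp
  simp only [flp_iff]

theorem CI_flp {w : Ω → ℝ} {X Z Y : Ω → Bool} (h : CI w X Z Y) (b c d : Bool) :
    CI w (flp b X) (flp c Z) (flp d Y) := by
  intro α β γ
  rw [p3_flp, p1_flp, p2_flp, p2_flp]
  exact h _ _ _

theorem mu_flp (X : Ω → Bool) (b : Bool) : mu w (flp b X) = mu w X := by
  unfold mu
  rw [p1_flp, p1_flp]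
  cases b
  · simp
  · simp [min_comm]

theorem err_flp (X Y : Ω → Bool) (b c : Bool) : err w (flp b X) (flp c Y) = err w X Y := by
  unfold err
  simp only [p2_flp]
  cases b <;> cases c <;> simp [min_comm, add_comm]

theorem dd_flp (X Y : Ω → Bool) (b : Bool) : dd w (flp b X) (flp b Y) = dd w X Y := by
  rw [dd_eq, dd_eq, p2_flp, p2_flp]
  cases b <;> simp [add_comm]

theorem dd_flp_ne (X Y : Ω → Bool) (b c : Bool) (hbc : b ≠ c) (hw : ∑ ω, w ω = 1) :
    dd w (flp b X) (flp c Y) = 1 - dd w X Y := by
  rw [← hw]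
  unfold dd
  rw [← Finset.sum_sub_distrib]
  apply Finset.sum_congr rfl
  intro ω _
  unfold flp
  cases b <;> cases c <;> simp at hbc <;> cases X ω <;> cases Y ω <;> simp

theorem Pos_flp (X Y : Ω → Bool) (b c : Bool) (h : (b = c) ↔ Pos w X Y) :
    Pos w (flp b X) (flp c Y) := by
  by_cases hp : Pos w X Y
  · have hbc := h.2 hp
    subst hbc
    unfold Pos at *
    simp only [p2_flp]
    cases b
    · simpa using hp
    · simp only [Bool.xor_true, Bool.not_true, Bool.not_false]
      linarith
  · have hbc : b ≠ c := fun hh => hp (h.1 hh)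
    unfold Pos at *
    simp only [p2_flp]
    rw [not_le] at hp
    cases b <;> cases c <;> simp at hbc <;>
      simp only [Bool.xor_true, Bool.xor_false, Bool.not_true, Bool.not_false] <;> linarith

end flips

theorem key (B : BayesNet V) (hT : B.underlying.IsTree) (s : V → Bool) (m : ℕ) (x : ℕ → V)
    (hx : IsP B.underlying m x)
    (hpos : ∀ j, j < m → Pos B.law (flp (s (x j)) (co (x j))) (flp (s (x (j + 1))) (co (x (j + 1))))) :
    (s (x 0) = s (x m) →
      min (∑ j ∈ range m, dd B.law (flp (s (x j)) (co (x j)))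
        (flp (s (x (j + 1))) (co (x (j + 1))))) (mu B.law (co (x 0))) ≤
        128 * dd B.law (co (x 0)) (co (x m))) ∧
    (s (x 0) ≠ s (x m) → mu B.law (co (x 0)) ≤ 128 * dd B.law (co (x 0)) (co (x m))) := by
  have hw := law_nonneg B
  have hd0 := dd_nonneg B.law hw (co (x 0)) (co (x m))
  have hm0 := mu_nonneg B.law hw (co (x 0))
  rcases net_path B hT m x hx with hci | hind
  · have hc := chain B.law hw m (fun j => flp (s (x j)) (co (x j)))
      (fun i j k h1 h2 h3 => CI_flp (hci i j k h1 h2 h3) _ _ _) hpos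
    simp only [mu_flp, err_flp] at hc
    have he := dd_ge_err B.law (co (x 0)) (co (x m))
    rcases hc with ⟨h1, h2, h3⟩ | h
    · constructor
      · intro hs
        rw [hs, dd_flp] at h2
        refine le_trans (min_le_left _ _) ?_
        linarith
      · intro hs
        rw [dd_flp_ne B.law _ _ _ _ hs (law_total B)] at h3
        have h4 : mu B.law (co (x 0)) ≤ 1 := by
          have := p1_total B (x 0)
          have a1 : mu B.law (co (x 0)) ≤ p1 B.law (co (x 0)) true := min_le_left _ _
          have a2 := p1_nonneg B.law hw (co (x 0)) false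
          linarith
        linarith
    · constructor
      · intro _
        refine le_trans (min_le_right _ _) ?_
        linarith
      · intro _
        linarith
  · constructor
    · intro _
      refine le_trans (min_le_right _ _) ?_
      linarith
    · intro _
      linarith

end R122PT
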