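import Mathlib

/-!
# Binary random variables on a finite weighted space: Markov chains of binary variables
(helper122, MP_bd47c3_lc)
-/

namespace R122PT

open Finset

variable {Ω : Type} [Fintype Ω]

def p1 (w : Ω → ℝ) (X : Ω → Bool) (α : Bool) : ℝ := ∑ ω, if X ω = α then w ω else 0

def p2 (w : Ω → ℝ) (X Y : Ω → Bool) (α β : Bool) : ℝ :=
  ∑ ω, if X ω = α ∧ Y ω = β then w ω else 0

def p3 (w : Ω → ℝ) (X Y Z : Ω → Bool) (α β γ : Bool) : ℝ :=
  ∑ ω, if X ω = α ∧ Y ω = β ∧ Z ω = γ then w ω else 0

def dd (w : Ω → ℝ) (X Y : Ω → Bool) : ℝ := ∑ ω, if X ω ≠ Y ω then w ω else 0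

noncomputable def mu (w : Ω → ℝ) (X : Ω → Bool) : ℝ := min (p1 w X true) (p1 w X false)

noncomputable def err (w : Ω → ℝ) (X Y : Ω → Bool) : ℝ :=
  min (p2 w X Y true true) (p2 w X Y false true) +
    min (p2 w X Y true false) (p2 w X Y false false)

/-- `X` and `Y` are conditionally independent given `Z`. -/
def CI (w : Ω → ℝ) (X Z Y : Ω → Bool) : Prop :=
  ∀ α β γ, p3 w X Z Y α β γ * p1 w Z β = p2 w X Z α β * p2 w Z Y β γ

variable (w : Ω → ℝ)

theorem p1_eq (X Y : Ω → Bool) (α : Bool) : p1 w X α = p2 w X Y α true + p2 w X Y α false := by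
  unfold p1 p2
  rw [← Finset.sum_add_distrib]
  apply Finset.sum_congr rfl
  intro ω _
  by_cases h : X ω = α <;> cases Y ω <;> simp [h]

theorem p2_comm (X Y : Ω → Bool) (α β : Bool) : p2 w X Y α β = p2 w Y X β α := by
  unfold p2
  apply Finset.sum_congr rfl
  intro ω _
  simp [and_comm]

theorem p2_eq_mid (X Z Y : Ω → Bool) (α γ : Bool) :
    p2 w X Y α γ = p3 w X Z Y α true γ + p3 w X Z Y α false γ := by
  unfold p2 p3
  rw [← Finset.sum_add_distrib]
  apply Finset.sum_congr rfl
  intro ω _
  by_cases h : X ω = α <;> by_cases h' : Y ω = γ <;> cases Z ω <;> simp [h, h']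

theorem p2_eq_last (X Z Y : Ω → Bool) (α β : Bool) :
    p2 w X Z α β = p3 w X Z Y α β true + p3 w X Z Y α β false := by
  unfold p2 p3
  rw [← Finset.sum_add_distrib]
  apply Finset.sum_congr rfl
  intro ω _
  by_cases h : X ω = α <;> by_cases h' : Z ω = β <;> cases Y ω <;> simp [h, h']

theorem dd_eq (X Y : Ω → Bool) : dd w X Y = p2 w X Y true false + p2 w X Y false true := by
  unfold dd p2
  rw [← Finset.sum_add_distrib]
  apply Finset.sum_congr rfl
  intro ω _
  cases X ω <;> cases Y ω <;> simp

theorem dd_comm (X Y : Ω → Bool) : dd w X Y = dd w Y X := by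
  unfold dd
  apply Finset.sum_congr rfl
  intro ω _
  simp [ne_comm]

theorem dd_self (X : Ω → Bool) : dd w X X = 0 := by
  unfold dd; simp

theorem p1_nonneg (hw : ∀ ω, 0 ≤ w ω) (X : Ω → Bool) (α : Bool) : 0 ≤ p1 w X α :=
  Finset.sum_nonneg fun ω _ => by split_ifs <;> simp [hw]

theorem p2_nonneg (hw : ∀ ω, 0 ≤ w ω) (X Y : Ω → Bool) (α β : Bool) : 0 ≤ p2 w X Y α β :=
  Finset.sum_nonneg fun ω _ => by split_ifs <;> simp [hw]

theorem p3_nonneg (hw : ∀ ω, 0 ≤ w ω) (X Y Z : Ω → Bool) (α β γ : Bool) :
    0 ≤ p3 w X Y Z α β γ :=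
  Finset.sum_nonneg fun ω _ => by split_ifs <;> simp [hw]

theorem dd_nonneg (hw : ∀ ω, 0 ≤ w ω) (X Y : Ω → Bool) : 0 ≤ dd w X Y :=
  Finset.sum_nonneg fun ω _ => by split_ifs <;> simp [hw]

theorem dd_tri (hw : ∀ ω, 0 ≤ w ω) (X Y Z : Ω → Bool) : dd w X Z ≤ dd w X Y + dd w Y Z := by
  unfold dd
  rw [← Finset.sum_add_distrib]
  apply Finset.sum_le_sum
  intro ω _
  have := hw ω
  cases X ω <;> cases Y ω <;> cases Z ω <;> simp <;> linarith

theorem p1_le (hw : ∀ ω, 0 ≤ w ω) (X Y : Ω → Bool) (α : Bool) :
    p1 w X α ≤ p1 w Y α + dd w X Y := by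
  unfold p1 dd
  rw [← Finset.sum_add_distrib]
  apply Finset.sum_le_sum
  intro ω _
  have := hw ω
  cases X ω <;> cases Y ω <;> cases α <;> simp <;> linarith

theorem mu_nonneg (hw : ∀ ω, 0 ≤ w ω) (X : Ω → Bool) : 0 ≤ mu w X :=
  le_min (p1_nonneg w hw X true) (p1_nonneg w hw X false)

theorem mu_le (hw : ∀ ω, 0 ≤ w ω) (X Y : Ω → Bool) : mu w X ≤ mu w Y + dd w X Y := by
  have h1 := p1_le w hw X Y true
  have h2 := p1_le w hw X Y false
  unfold mu
  rcases le_total (p1 w Y true) (p1 w Y false) with h | h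
  · rw [min_eq_left h]
    exact le_trans (min_le_left _ _) h1
  · rw [min_eq_right h]
    exact le_trans (min_le_right _ _) h2

theorem mu_sub (hw : ∀ ω, 0 ≤ w ω) (X Y : Ω → Bool) : |mu w X - mu w Y| ≤ dd w X Y := by
  rw [abs_le]
  have h1 := mu_le w hw X Y
  have h2 := mu_le w hw Y X
  rw [dd_comm w Y X] at h2
  constructor <;> linarith

theorem dd_ge_err (X Y : Ω → Bool) : err w X Y ≤ dd w X Y := by
  rw [dd_eq]
  unfold err
  have h1 := min_le_right (p2 w X Y true true) (p2 w X Y false true)
  have h2 := min_le_left (p2 w X Y true false) (p2 w X Y false false)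
  linarith

theorem err_not_right (X Y : Ω → Bool) : err w X (fun ω => !Y ω) = err w X Y := by
  have h : ∀ α β, p2 w X (fun ω => !Y ω) α β = p2 w X Y α (!β) := by
    intro α β
    unfold p2
    apply Finset.sum_congr rfl
    intro ω _
    show (if X ω = α ∧ (!Y ω) = β then w ω else 0) = if X ω = α ∧ Y ω = !β then w ω else 0
    by_cases hx : X ω = α <;> cases Y ω <;> cases β <;> simp [hx]
  unfold err
  simp only [h, Bool.not_true, Bool.not_false]
  ring

theorem CI.symm {w : Ω → ℝ} {X Z Y : Ω → Bool} (h : CI w X Z Y) : CI w Y Z X := by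
  intro α β γ
  have h1 := h γ β α
  have e1 : p3 w Y Z X α β γ = p3 w X Z Y γ β α := by
    unfold p3
    apply Finset.sum_congr rfl
    intro ω _
    by_cases h1 : X ω = γ <;> by_cases h2 : Z ω = β <;> by_cases h3 : Y ω = α <;> simp [h1, h2, h3]
  rw [e1, h1, p2_comm w Y Z, p2_comm w Z X]
  ring

theorem CI_left (X Y : Ω → Bool) : CI w X X Y := by
  intro α β γ
  have e1 : p3 w X X Y α β γ = if α = β then p2 w X Y β γ else 0 := by
    split_ifs with h
    · subst h
      unfold p3 p2
      apply Finset.sum_congr rfl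
      intro ω _
      by_cases h1 : X ω = α <;> simp [h1]
    · unfold p3
      apply Finset.sum_eq_zero
      intro ω _
      rw [if_neg]
      rintro ⟨h1, h2, _⟩
      exact h (h1.symm.trans h2)
  have e2 : p2 w X X α β = if α = β then p1 w X β else 0 := by
    split_ifs with h
    · subst h
      unfold p2 p1
      apply Finset.sum_congr rfl
      intro ω _
      by_cases h1 : X ω = α <;> simp [h1]
    · unfold p2
      apply Finset.sum_eq_zero
      intro ω _
      rw [if_neg]
      rintro ⟨h1, h2⟩
      exact h (h1.symm.trans h2)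
  rw [e1, e2]
  split_ifs
  · ring
  · simp

theorem CI_right (X Y : Ω → Bool) : CI w X Y Y := (CI_left w Y X).symm

/-- `d(X,Y) ≥ d(X,Z) + d(Z,Y) - 2 d(X,Z) d(Z,Y) / m` if `X ⟂ Y | Z` and `m ≤ μ(Z)`. -/
theorem step_lower (hw : ∀ ω, 0 ≤ w ω) (X Z Y : Ω → Bool) (h : CI w X Z Y) (m : ℝ) (hm : 0 < m)
    (hmu : m ≤ mu w Z) :
    dd w X Z + dd w Z Y - 2 * (dd w X Z * dd w Z Y / m) ≤ dd w X Y := by
  have e1 : dd w X Y = dd w X Z + dd w Z Y -
      2 * (p3 w X Z Y false true false + p3 w X Z Y true false true) := by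
    unfold dd p3
    rw [← Finset.sum_add_distrib, ← Finset.sum_add_distrib, Finset.mul_sum,
      ← Finset.sum_sub_distrib]
    apply Finset.sum_congr rfl
    intro ω _
    cases X ω <;> cases Y ω <;> cases Z ω <;> simp <;> ring
  have hz1 : m ≤ p1 w Z true := le_trans hmu (min_le_left _ _)
  have hz2 : m ≤ p1 w Z false := le_trans hmu (min_le_right _ _)
  have a1 := h false true false
  have a2 := h true false true
  have b1 : p3 w X Z Y false true false ≤ p2 w X Z false true * p2 w Z Y true false / m := by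
    rw [le_div_iff₀ hm, ← a1]
    exact mul_le_mul_of_nonneg_left hz1 (p3_nonneg w hw _ _ _ _ _ _)
  have b2 : p3 w X Z Y true false true ≤ p2 w X Z true false * p2 w Z Y false true / m := by
    rw [le_div_iff₀ hm, ← a2]
    exact mul_le_mul_of_nonneg_left hz2 (p3_nonneg w hw _ _ _ _ _ _)
  have n1 := p2_nonneg w hw X Z false true
  have n2 := p2_nonneg w hw X Z true false
  have n3 := p2_nonneg w hw Z Y false true
  have n4 := p2_nonneg w hw Z Y true false
  have c1 : p2 w X Z false true * p2 w Z Y true false / m +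
      p2 w X Z true false * p2 w Z Y false true / m ≤ dd w X Z * dd w Z Y / m := by
    rw [← add_div, dd_eq w X Z, dd_eq w Z Y]
    apply div_le_div_of_nonneg_right _ hm.le
    nlinarith [mul_nonneg n1 n3, mul_nonneg n2 n4]
  rw [e1]
  linarith

theorem err_mono (hw : ∀ ω, 0 ≤ w ω) (X Z Y : Ω → Bool) (h : CI w X Z Y) :
    err w X Z ≤ err w X Y := by
  -- for every value β of Z
  have key : ∀ β, min (p2 w X Z true β) (p2 w X Z false β) ≤
      min (p3 w X Z Y true β true) (p3 w X Z Y false β true) +
        min (p3 w X Z Y true β false) (p3 w X Z Y false β false) := by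
    intro β
    have hz := p1_nonneg w hw Z β
    rcases hz.eq_or_lt with h0 | h0
    · have hs : p1 w Z β = p2 w Z X β true + p2 w Z X β false := p1_eq w Z X β
      have n1 := p2_nonneg w hw Z X β true
      have n2 := p2_nonneg w hw Z X β false
      have z1 : p2 w X Z true β = 0 := by rw [p2_comm]; linarith
      rw [z1]
      refine le_trans (min_le_left _ _) ?_
      have m1 := le_min (p3_nonneg w hw X Z Y true β true) (p3_nonneg w hw X Z Y false β true)
      have m2 := le_min (p3_nonneg w hw X Z Y true β false) (p3_nonneg w hw X Z Y false β false)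
      linarith
    · have e : ∀ α γ, p3 w X Z Y α β γ = p2 w X Z α β * (p2 w Z Y β γ / p1 w Z β) := by
        intro α γ
        have := h α β γ
        field_simp
        linarith
      rw [e, e, e, e]
      have k1 : 0 ≤ p2 w Z Y β true / p1 w Z β := div_nonneg (p2_nonneg w hw _ _ _ _) hz
      have k2 : 0 ≤ p2 w Z Y β false / p1 w Z β := div_nonneg (p2_nonneg w hw _ _ _ _) hz
      have ks : p2 w Z Y β true / p1 w Z β + p2 w Z Y β false / p1 w Z β = 1 := by
        rw [← add_div, ← p1_eq]
        exact div_self h0.ne'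
      rcases le_total (p2 w X Z true β) (p2 w X Z false β) with hle | hle
      · rw [min_eq_left hle, min_eq_left (mul_le_mul_of_nonneg_right hle k1),
          min_eq_left (mul_le_mul_of_nonneg_right hle k2), ← mul_add, ks, mul_one]
      · rw [min_eq_right hle, min_eq_right (mul_le_mul_of_nonneg_right hle k1),
          min_eq_right (mul_le_mul_of_nonneg_right hle k2), ← mul_add, ks, mul_one]
  have k1 := key true
  have k2 := key false
  have sup : ∀ a b c d : ℝ, min a b + min c d ≤ min (a + c) (b + d) := by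
    intro a b c d
    apply le_min
    · have := min_le_left a b; have := min_le_left c d; linarith
    · have := min_le_right a b; have := min_le_right c d; linarith
  have s1 := sup (p3 w X Z Y true true true) (p3 w X Z Y false true true)
    (p3 w X Z Y true false true) (p3 w X Z Y false false true)
  have s2 := sup (p3 w X Z Y true true false) (p3 w X Z Y false true false)
    (p3 w X Z Y true false false) (p3 w X Z Y false false false)
  rw [← p2_eq_mid, ← p2_eq_mid] at s1 s2
  unfold err
  linarith

theorem err_change (hw : ∀ ω, 0 ≤ w ω) (X X' Y : Ω → Bool) :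
    err w X Y - dd w X X' ≤ err w X' Y := by
  -- split the discrepancy by the value of Y
  have hsplit : dd w X X' = (∑ ω, if X ω ≠ X' ω ∧ Y ω = true then w ω else 0) +
      (∑ ω, if X ω ≠ X' ω ∧ Y ω = false then w ω else 0) := by
    unfold dd
    rw [← Finset.sum_add_distrib]
    apply Finset.sum_congr rfl
    intro ω _
    cases Y ω <;> simp
  have key : ∀ α γ, p2 w X Y α γ - (∑ ω, if X ω ≠ X' ω ∧ Y ω = γ then w ω else 0) ≤
      p2 w X' Y α γ := by
    intro α γ
    unfold p2
    rw [← Finset.sum_sub_distrib]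
    apply Finset.sum_le_sum
    intro ω _
    have := hw ω
    cases X ω <;> cases X' ω <;> cases α <;> by_cases hy : Y ω = γ <;> simp [hy] <;> linarith
  have kmin : ∀ γ, min (p2 w X Y true γ) (p2 w X Y false γ) -
      (∑ ω, if X ω ≠ X' ω ∧ Y ω = γ then w ω else 0) ≤
      min (p2 w X' Y true γ) (p2 w X' Y false γ) := by
    intro γ
    apply le_min
    · have := key true γ
      have := min_le_left (p2 w X Y true γ) (p2 w X Y false γ)
      linarith
    · have := key false γ
      have := min_le_right (p2 w X Y true γ) (p2 w X Y false γ)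
      linarith
  have h1 := kmin true
  have h2 := kmin false
  unfold err
  rw [hsplit]
  linarith

/-- Nonnegative correlation. -/
def Pos (w : Ω → ℝ) (X Y : Ω → Bool) : Prop :=
  p2 w X Y true false * p2 w X Y false true ≤ p2 w X Y true true * p2 w X Y false false

theorem Pos.symm {w : Ω → ℝ} {X Y : Ω → Bool} (h : Pos w X Y) : Pos w Y X := by
  unfold Pos at *
  rw [p2_comm w Y X true false, p2_comm w Y X false true, p2_comm w Y X true true,
    p2_comm w Y X false false]
  linarith

theorem err_pos (hw : ∀ ω, 0 ≤ w ω) (X Y : Ω → Bool) (h : Pos w X Y) :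
    min (dd w X Y) (mu w X) ≤ err w X Y := by
  have a := p2_nonneg w hw X Y true true
  have b := p2_nonneg w hw X Y true false
  have c := p2_nonneg w hw X Y false true
  have d := p2_nonneg w hw X Y false false
  have h1 : mu w X ≤ p2 w X Y true true + p2 w X Y true false := by
    rw [← p1_eq]; exact min_le_left _ _
  have h2 : mu w X ≤ p2 w X Y false true + p2 w X Y false false := by
    rw [← p1_eq]; exact min_le_right _ _
  unfold Pos at h
  rw [dd_eq]
  unfold err
  set A := p2 w X Y true true
  set B := p2 w X Y true false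
  set C := p2 w X Y false true
  set D := p2 w X Y false false
  rcases le_or_gt C A with hCA | hCA
  · rcases le_or_gt B D with hBD | hBD
    · rw [min_eq_right hCA, min_eq_left hBD]
      refine le_trans (min_le_left _ _) ?_
      linarith
    · rw [min_eq_right hCA, min_eq_right hBD.le]
      exact le_trans (min_le_right _ _) h2
  · rcases le_or_gt B D with hBD | hBD
    · rw [min_eq_left hCA.le, min_eq_left hBD]
      exact le_trans (min_le_right _ _) h1
    · exfalso
      nlinarith [mul_nonneg a d, mul_pos (lt_of_le_of_lt a hCA) (lt_of_le_of_lt d hBD)]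

theorem err_small (hw : ∀ ω, 0 ≤ w ω) (X Y : Ω → Bool) (h : dd w X Y ≤ mu w X / 2) :
    dd w X Y ≤ err w X Y := by
  have a := p2_nonneg w hw X Y true true
  have b := p2_nonneg w hw X Y true false
  have c := p2_nonneg w hw X Y false true
  have d := p2_nonneg w hw X Y false false
  have h1 : mu w X ≤ p2 w X Y true true + p2 w X Y true false := by
    rw [← p1_eq]; exact min_le_left _ _
  have h2 : mu w X ≤ p2 w X Y false true + p2 w X Y false false := by
    rw [← p1_eq]; exact min_le_right _ _
  rw [dd_eq] at h ⊢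
  unfold err
  rw [min_eq_right (by linarith), min_eq_left (by linarith)]
  linarith

/-- The main estimate on chains. -/
theorem chain (hw : ∀ ω, 0 ≤ w ω) (m : ℕ) (X : ℕ → Ω → Bool)
    (hci : ∀ i j k, i ≤ j → j ≤ k → k ≤ m → CI w (X i) (X j) (X k))
    (hpos : ∀ j, j < m → Pos w (X j) (X (j + 1))) :
    ((∑ j ∈ range m, dd w (X j) (X (j + 1))) ≤ mu w (X 0) / 16 ∧
      13 / 15 * (∑ j ∈ range m, dd w (X j) (X (j + 1))) ≤ dd w (X 0) (X m) ∧
      dd w (X 0) (X m) ≤ ∑ j ∈ range m, dd w (X j) (X (j + 1))) ∨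
    mu w (X 0) / 128 ≤ err w (X 0) (X m) := by
  set T : ℕ → ℝ := fun n => ∑ j ∈ range n, dd w (X j) (X (j + 1)) with hT
  have hTs : ∀ n, T (n + 1) = T n + dd w (X n) (X (n + 1)) := by
    intro n; simp only [hT]; rw [Finset.sum_range_succ]
  have hT0 : T 0 = 0 := by simp [hT]
  have hTn : ∀ n, 0 ≤ T n := fun n => Finset.sum_nonneg fun j _ => dd_nonneg w hw _ _
  have hup : ∀ n, dd w (X 0) (X n) ≤ T n := by
    intro n
    induction n with
    | zero => rw [dd_self, hT0]
    | succ n ih =>
      rw [hTs]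
      have := dd_tri w hw (X 0) (X n) (X (n + 1))
      linarith
  have hmun : ∀ n, mu w (X 0) - T n ≤ mu w (X n) := by
    intro n
    have := mu_le w hw (X 0) (X n)
    have := hup n
    linarith
  have hlow : ∀ n, n ≤ m → 0 < mu w (X 0) → T n ≤ mu w (X 0) / 16 →
      13 / 15 * T n ≤ dd w (X 0) (X n) := by
    intro n
    induction n with
    | zero => intro _ _ _; rw [dd_self, hT0]; norm_num
    | succ n ih =>
      intro hn hmu hle
      have hd := dd_nonneg w hw (X n) (X (n + 1))
      have h1 := hTs n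
      have hle' : T n ≤ mu w (X 0) / 16 := by linarith
      have h2 := ih (by omega) hmu hle'
      have h3 := step_lower w hw (X 0) (X n) (X (n + 1)) (hci 0 n (n + 1) (by omega) (by omega) hn)
        (15 / 16 * mu w (X 0)) (by linarith) (by have := hmun n; linarith)
      have h4 := hup n
      have h5 : dd w (X 0) (X n) * dd w (X n) (X (n + 1)) / (15 / 16 * mu w (X 0)) ≤
          1 / 15 * dd w (X n) (X (n + 1)) := by
        rw [div_le_iff₀ (by linarith)]
        nlinarith
      rw [h1]
      linarith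
  rcases (mu_nonneg w hw (X 0)).eq_or_lt with hmu0 | hmu0
  · right
    rw [← hmu0]
    have : 0 ≤ err w (X 0) (X m) := by
      unfold err
      exact add_nonneg (le_min (p2_nonneg w hw _ _ _ _) (p2_nonneg w hw _ _ _ _))
        (le_min (p2_nonneg w hw _ _ _ _) (p2_nonneg w hw _ _ _ _))
    simpa using this
  rcases le_or_gt (T m) (mu w (X 0) / 16) with hc | hc
  · left
    exact ⟨hc, hlow m (le_refl _) hmu0 hc, hup m⟩
  · right
    -- first index where the sum exceeds the threshold
    have hex : ∃ n, mu w (X 0) / 16 < T n := ⟨m, hc⟩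
    classical
    obtain ⟨n0, hn0⟩ : ∃ n0, n0 = Nat.find hex := ⟨_, rfl⟩
    have hn0s := Nat.find_spec hex
    rw [← hn0] at hn0s
    have hn0m : n0 ≤ m := by rw [hn0]; exact Nat.find_min' hex hc
    have hn0p : n0 ≠ 0 := by
      intro h
      rw [h, hT0] at hn0s
      linarith
    obtain ⟨k, hk⟩ : ∃ k, n0 = k + 1 := ⟨n0 - 1, by omega⟩
    have hk1 : T k ≤ mu w (X 0) / 16 := by
      by_contra hcon
      exact Nat.find_min hex (m := k) (by omega) (by linarith [not_le.mp hcon])
    have hk2 : mu w (X 0) / 16 < T (k + 1) := by rw [← hk]; exact hn0s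
    have hkm : k + 1 ≤ m := by omega
    have hmuk := hmun k
    rcases lt_or_ge (T k) (mu w (X 0) / 64) with hB | hB
    · -- one long step
      have hstep : 3 / 64 * mu w (X 0) ≤ dd w (X k) (X (k + 1)) := by
        have := hTs k; linarith
      have e1 := err_pos w hw (X k) (X (k + 1)) (hpos k (by omega))
      have e2 := err_mono w hw (X k) (X (k + 1)) (X m)
        (hci k (k + 1) m (by omega) hkm (le_refl _))
      have e3 := err_change w hw (X k) (X 0) (X m)
      have e4 : 3 / 64 * mu w (X 0) ≤ min (dd w (X k) (X (k + 1))) (mu w (X k)) :=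
        le_min hstep (by linarith)
      have e5 := hup k
      rw [dd_comm w (X k) (X 0)] at e3
      linarith
    · have e1 := hlow k (by omega) hmu0 hk1
      have e2 := hup k
      have e3 := err_small w hw (X 0) (X k) (by linarith)
      have e4 := err_mono w hw (X 0) (X k) (X m) (hci 0 k m (by omega) (by omega) (le_refl _))
      linarith

end R122PT
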