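import Mathlib

/-!
# Rooted trees, heavy paths
(helper122, MP_bd47c3_lc)
-/

namespace R122PT

open Finset

/-- a rooting of a tree -/
structure RT {V : Type} (G : SimpleGraph V) where
  par : V → V
  root : V
  h : V → ℕ
  par_root : par root = root
  h_root : h root = 0
  h_par : ∀ v, v ≠ root → h (par v) + 1 = h v
  adj_par : ∀ v, v ≠ root → G.Adj v (par v)
  adj_cases : ∀ u v, G.Adj u v → (u ≠ root ∧ par u = v) ∨ (v ≠ root ∧ par v = u)

variable {V : Type} [Fintype V] [DecidableEq V] {G : SimpleGraph V}

theorem exists_RT (hG : G.IsTree) : Nonempty (RT G) := by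
  classical
  obtain ⟨r⟩ := hG.connected.nonempty
  have hstep : ∀ v, ∃ u, v ≠ r → (G.Adj v u ∧ G.dist u r + 1 = G.dist v r) := by
    intro v
    by_cases hv : v = r
    · exact ⟨v, fun h => absurd hv h⟩
    · obtain ⟨p, hp⟩ := hG.connected.exists_walk_length_eq_dist v r
      cases p with
      | nil => exact absurd rfl hv
      | @cons _ u _ ha q =>
        refine ⟨u, fun _ => ⟨ha, ?_⟩⟩
        rw [SimpleGraph.Walk.length_cons] at hp
        have h1 : G.dist u r ≤ q.length := SimpleGraph.dist_le q
        obtain ⟨q', hq'⟩ := hG.connected.exists_walk_length_eq_dist u r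
        have h2 : G.dist v r ≤ (SimpleGraph.Walk.cons ha q').length := SimpleGraph.dist_le _
        rw [SimpleGraph.Walk.length_cons] at h2
        omega
  choose p hp using hstep
  set par : V → V := fun v => if v = r then r else p v with hpar
  have hpar' : ∀ v, v ≠ r → par v = p v := by
    intro v hv; simp [hpar, hv]
  have hd : ∀ v, v ≠ r → G.dist (par v) r + 1 = G.dist v r := by
    intro v hv; rw [hpar' v hv]; exact (hp v hv).2
  have ha : ∀ v, v ≠ r → G.Adj v (par v) := by
    intro v hv; rw [hpar' v hv]; exact (hp v hv).1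
  have hinj : Set.InjOn (fun v => s(v, par v)) (univ.erase r : Finset V) := by
    intro v hv w hw hvw
    simp only [coe_erase, coe_univ, Set.mem_diff, Set.mem_univ, Set.mem_singleton_iff,
      true_and] at hv hw
    simp only [Sym2.eq_iff] at hvw
    rcases hvw with ⟨h, _⟩ | ⟨h1, h2⟩
    · exact h
    · have e1 := hd v hv
      have e2 := hd w hw
      rw [h2] at e1
      rw [← h1] at e2
      omega
  have himg : (univ.erase r).image (fun v => s(v, par v)) = G.edgeFinset := by
    apply Finset.eq_of_subset_of_card_le
    · intro e he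
      rw [Finset.mem_image] at he
      obtain ⟨v, hv, rfl⟩ := he
      rw [Finset.mem_erase] at hv
      rw [SimpleGraph.mem_edgeFinset, SimpleGraph.mem_edgeSet]
      exact ha v hv.1
    · rw [Finset.card_image_of_injOn hinj, Finset.card_erase_of_mem (mem_univ r), Finset.card_univ]
      have := hG.card_edgeFinset
      omega
  refine ⟨⟨par, r, fun v => G.dist v r, by simp [hpar], by simp, hd, ha, ?_⟩⟩
  intro u v huv
  have : s(u, v) ∈ G.edgeFinset := by
    rw [SimpleGraph.mem_edgeFinset, SimpleGraph.mem_edgeSet]; exact huv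
  rw [← himg, Finset.mem_image] at this
  obtain ⟨w, hw, he⟩ := this
  rw [Finset.mem_erase] at hw
  rw [Sym2.eq_iff] at he
  rcases he with ⟨rfl, h2⟩ | ⟨rfl, h2⟩
  · exact Or.inl ⟨hw.1, h2⟩
  · exact Or.inr ⟨hw.1, h2⟩

namespace RT

variable (R : RT G)

omit [Fintype V] [DecidableEq V] in
theorem induct {P : V → Prop} (h0 : P R.root) (h1 : ∀ v, v ≠ R.root → P (R.par v) → P v)
    (v : V) : P v := by
  obtain ⟨n, hn⟩ : ∃ n, R.h v = n := ⟨_, rfl⟩
  induction n using Nat.strong_induction_on generalizing v with
  | _ n ih =>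
    by_cases hv : v = R.root
    · rw [hv]; exact h0
    · apply h1 v hv
      exact ih (R.h (R.par v)) (by have := R.h_par v hv; omega) _ rfl

omit [Fintype V] [DecidableEq V] in
theorem h_eq_zero {v : V} (hv : R.h v = 0) : v = R.root := by
  by_contra hne
  have := R.h_par v hne
  omega

open Classical in
/-- the ancestors of `v`, including `v` -/
noncomputable def ancs (v : V) : Finset V := univ.filter (fun x => ∃ i, R.par^[i] v = x)

omit [DecidableEq V] in
theorem mem_ancs {v x : V} : x ∈ R.ancs v ↔ ∃ i, R.par^[i] v = x := by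
  unfold ancs; simp

omit [DecidableEq V] in
theorem self_mem (v : V) : v ∈ R.ancs v := R.mem_ancs.2 ⟨0, rfl⟩

omit [Fintype V] [DecidableEq V] in
theorem par_iter_root (n : ℕ) : R.par^[n] R.root = R.root := by
  induction n with
  | zero => rfl
  | succ n ih => rw [Function.iterate_succ_apply, R.par_root, ih]

omit [DecidableEq V] in
theorem ancs_root : R.ancs R.root = {R.root} := by
  ext x
  rw [mem_ancs, Finset.mem_singleton]
  constructor
  · rintro ⟨i, rfl⟩; exact R.par_iter_root i
  · rintro rfl; exact ⟨0, rfl⟩

theorem ancs_step (v : V) : R.ancs v = insert v (R.ancs (R.par v)) := by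
  ext x
  rw [Finset.mem_insert, mem_ancs, mem_ancs]
  constructor
  · rintro ⟨i, hi⟩
    cases i with
    | zero => exact Or.inl hi.symm
    | succ i => exact Or.inr ⟨i, hi⟩
  · rintro (rfl | ⟨i, hi⟩)
    · exact ⟨0, rfl⟩
    · exact ⟨i + 1, hi⟩

omit [DecidableEq V] in
theorem mem_trans {x y z : V} (h1 : x ∈ R.ancs y) (h2 : y ∈ R.ancs z) : x ∈ R.ancs z := by
  rw [mem_ancs] at *
  obtain ⟨i, rfl⟩ := h1
  obtain ⟨j, rfl⟩ := h2
  exact ⟨i + j, Function.iterate_add_apply _ _ _ _⟩

omit [DecidableEq V] in
theorem par_mem (v : V) : R.par v ∈ R.ancs v := R.mem_ancs.2 ⟨1, rfl⟩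

omit [Fintype V] [DecidableEq V] in
theorem h_par_le (v : V) : R.h (R.par v) ≤ R.h v := by
  by_cases hv : v = R.root
  · rw [hv, R.par_root]
  · have := R.h_par v hv; omega

omit [Fintype V] [DecidableEq V] in
theorem h_iter_le (v : V) (n : ℕ) : R.h (R.par^[n] v) ≤ R.h v := by
  induction n with
  | zero => exact le_refl _
  | succ n ih =>
    rw [Function.iterate_succ_apply']
    exact (R.h_par_le _).trans ih

omit [DecidableEq V] in
theorem h_le {x v : V} (h : x ∈ R.ancs v) : R.h x ≤ R.h v := by
  rw [mem_ancs] at h
  obtain ⟨i, rfl⟩ := h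
  exact R.h_iter_le v i

omit [DecidableEq V] in
theorem not_mem_par {v : V} (hv : v ≠ R.root) : v ∉ R.ancs (R.par v) := by
  intro h
  have := R.h_le h
  have := R.h_par v hv
  omega

theorem eq_of_h {x v : V} (h : x ∈ R.ancs v) (hh : R.h v ≤ R.h x) : x = v := by
  by_contra hne
  rw [R.ancs_step v, Finset.mem_insert] at h
  rcases h with h | h
  · exact hne h
  · by_cases hv : v = R.root
    · rw [hv, R.par_root, R.ancs_root, Finset.mem_singleton] at h
      exact hne (h.trans hv.symm)
    · have := R.h_le h
      have := R.h_par v hv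
      omega

omit [DecidableEq V] in
theorem root_mem (v : V) : R.root ∈ R.ancs v := by
  refine R.induct (P := fun v => R.root ∈ R.ancs v) (R.self_mem _) ?_ v
  intro v _ ih
  exact R.mem_trans ih (R.par_mem v)

theorem sum_ancs (f : V → ℝ) (v : V) :
    ∑ x ∈ R.ancs v, (f x - f (R.par x)) = f v - f R.root := by
  refine R.induct (P := fun v => ∑ x ∈ R.ancs v, (f x - f (R.par x)) = f v - f R.root) ?_ ?_ v
  · rw [R.ancs_root, Finset.sum_singleton, R.par_root]
  · intro v hv ih
    rw [R.ancs_step, Finset.sum_insert (R.not_mem_par hv), ih]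
    ring

theorem sum_diff (v u : V) : ∃ z ∈ R.ancs u, z ∈ R.ancs v ∧ ∀ f : V → ℝ,
    ∑ x ∈ R.ancs u \ R.ancs v, (f x - f (R.par x)) = f u - f z := by
  refine R.induct (P := fun u => ∃ z ∈ R.ancs u, z ∈ R.ancs v ∧ ∀ f : V → ℝ,
    ∑ x ∈ R.ancs u \ R.ancs v, (f x - f (R.par x)) = f u - f z) ?_ ?_ u
  · refine ⟨R.root, R.self_mem _, R.root_mem v, ?_⟩
    intro f
    rw [Finset.sum_eq_zero, sub_self]
    intro x hx
    rw [R.ancs_root, Finset.mem_sdiff, Finset.mem_singleton] at hx
    rw [hx.1] at hx
    exact absurd (R.root_mem v) hx.2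
  · intro u hu ih
    by_cases hmem : u ∈ R.ancs v
    · refine ⟨u, R.self_mem _, hmem, ?_⟩
      intro f
      rw [sub_self]
      apply Finset.sum_eq_zero
      intro x hx
      rw [Finset.mem_sdiff] at hx
      exact absurd (R.mem_trans hx.1 hmem) hx.2
    · obtain ⟨z, hz1, hz2, hf⟩ := ih
      refine ⟨z, R.mem_trans hz1 (R.par_mem u), hz2, ?_⟩
      intro f
      have : R.ancs u \ R.ancs v = insert u (R.ancs (R.par u) \ R.ancs v) := by
        rw [R.ancs_step u, Finset.insert_sdiff_of_notMem _ hmem]
      rw [this, Finset.sum_insert, hf]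
      · ring
      · rw [Finset.mem_sdiff]
        exact fun h => R.not_mem_par hu h.1

/-- the number of descendants -/
noncomputable def size (v : V) : ℕ := (univ.filter (fun x => v ∈ R.ancs x)).card

theorem size_pos (v : V) : 1 ≤ R.size v := by
  unfold size
  rw [Nat.one_le_iff_ne_zero, ← Nat.pos_iff_ne_zero, Finset.card_pos]
  exact ⟨v, by simp [R.self_mem v]⟩

theorem size_le (v : V) : R.size v ≤ Fintype.card V := by
  unfold size
  exact Finset.card_le_univ _

theorem size_par (v : V) : R.size v ≤ R.size (R.par v) := by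
  unfold size
  apply Finset.card_le_card
  intro x hx
  simp only [mem_filter, mem_univ, true_and] at hx ⊢
  exact R.mem_trans (R.par_mem v) hx

theorem sibling_size {a b : V} (ha : a ≠ R.root) (hb : b ≠ R.root) (hab : a ≠ b)
    (hp : R.par a = R.par b) : R.size a + R.size b ≤ R.size (R.par a) := by
  unfold size
  rw [← Finset.card_union_of_disjoint]
  · apply Finset.card_le_card
    intro x hx
    simp only [mem_filter, mem_univ, true_and, mem_union] at hx ⊢
    rcases hx with hx | hx
    · exact R.mem_trans (R.par_mem a) hx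
    · rw [hp]; exact R.mem_trans (R.par_mem b) hx
  · rw [Finset.disjoint_left]
    intro x hx1 hx2
    simp only [mem_filter, mem_univ, true_and] at hx1 hx2
    rw [mem_ancs] at hx1 hx2
    obtain ⟨i, hi⟩ := hx1
    obtain ⟨j, hj⟩ := hx2
    have hh : R.h a = R.h b := by
      have := R.h_par a ha
      have := R.h_par b hb
      rw [hp] at *
      omega
    rcases le_total i j with hij | hij
    · have : b ∈ R.ancs a := by
        rw [mem_ancs]
        refine ⟨j - i, ?_⟩
        rw [← hi, ← Function.iterate_add_apply, show j - i + i = j by omega, hj]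
      exact hab (R.eq_of_h this (by omega)).symm
    · have : a ∈ R.ancs b := by
        rw [mem_ancs]
        refine ⟨i - j, ?_⟩
        rw [← hj, ← Function.iterate_add_apply, show i - j + j = i by omega, hi]
      exact hab (R.eq_of_h this (by omega))

theorem exists_hc : ∃ hc : V → V, ∀ u v, v ≠ R.root → R.par v = u →
    hc u ≠ R.root ∧ R.par (hc u) = u ∧ R.size v ≤ R.size (hc u) := by
  have : ∀ u, ∃ c, ∀ v, v ≠ R.root → R.par v = u →
      c ≠ R.root ∧ R.par c = u ∧ R.size v ≤ R.size c := by
    intro u
    by_cases hne : (univ.filter (fun v => v ≠ R.root ∧ R.par v = u)).Nonempty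
    · obtain ⟨c, hc, hmax⟩ := Finset.exists_max_image _ R.size hne
      simp only [mem_filter, mem_univ, true_and] at hc hmax
      exact ⟨c, fun v h1 h2 => ⟨hc.1, hc.2, hmax v ⟨h1, h2⟩⟩⟩
    · refine ⟨u, fun v h1 h2 => ?_⟩
      exact absurd ⟨v, by simp [h1, h2]⟩ hne
  choose hc hhc using this
  exact ⟨hc, hhc⟩

/-- heavy path labels -/
theorem exists_lab : ∃ lab : V → V,
    (∀ w w', lab w = lab w' → w ∈ R.ancs w' ∨ w' ∈ R.ancs w) ∧
    (∀ v, 2 ^ ((R.ancs v).image lab).card ≤ 2 * Fintype.card V) := by
  obtain ⟨hc, hhc⟩ := R.exists_hc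
  let lb : ℕ → V → V := fun n => Nat.rec (fun v => v)
    (fun _ f v => if v = hc (R.par v) then f (R.par v) else v) n
  have lb0 : ∀ v, lb 0 v = v := fun v => rfl
  have lbs : ∀ n v, lb (n + 1) v = if v = hc (R.par v) then lb n (R.par v) else v :=
    fun n v => rfl
  set lab : V → V := fun v => lb (R.h v) v with hlab
  have l0 : lab R.root = R.root := by rw [hlab]; simp only; rw [R.h_root, lb0]
  have ls : ∀ v, v ≠ R.root → lab v = if v = hc (R.par v) then lab (R.par v) else v := by
    intro v hv
    rw [hlab]; simp only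
    rw [← R.h_par v hv, lbs]
  have lmem : ∀ v, lab v ∈ R.ancs v := by
    intro v
    refine R.induct (P := fun v => lab v ∈ R.ancs v) ?_ ?_ v
    · rw [l0]; exact R.self_mem _
    · intro v hv ih
      rw [ls v hv]
      split_ifs
      · exact R.mem_trans ih (R.par_mem v)
      · exact R.self_mem v
  -- same height
  have same : ∀ n w w', R.h w = n → R.h w' = n → lab w = lab w' → w = w' := by
    intro n
    induction n with
    | zero =>
      intro w w' h1 h2 _
      rw [R.h_eq_zero h1, R.h_eq_zero h2]
    | succ n ih =>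
      intro w w' h1 h2 hl
      have hw : w ≠ R.root := by rintro rfl; rw [R.h_root] at h1; omega
      have hw' : w' ≠ R.root := by rintro rfl; rw [R.h_root] at h2; omega
      by_cases c1 : w = hc (R.par w)
      · by_cases c2 : w' = hc (R.par w')
        · rw [ls w hw, ls w' hw', if_pos c1, if_pos c2] at hl
          have := ih (R.par w) (R.par w') (by have := R.h_par w hw; omega)
            (by have := R.h_par w' hw'; omega) hl
          rw [c1, c2, this]
        · rw [ls w' hw', if_neg c2] at hl
          have := lmem w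
          rw [hl] at this
          exact (R.eq_of_h this (by omega)).symm
      · rw [ls w hw, if_neg c1] at hl
        have := lmem w'
        rw [← hl] at this
        exact R.eq_of_h this (by omega)
  have comp : ∀ n w w', R.h w' = R.h w + n → lab w = lab w' → R.par^[n] w' = w := by
    intro n
    induction n with
    | zero =>
      intro w w' h1 h2
      exact (same (R.h w) w w' rfl (by omega) h2).symm
    | succ n ih =>
      intro w w' h1 hl
      have hw' : w' ≠ R.root := by rintro rfl; rw [R.h_root] at h1; omega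
      by_cases c2 : w' = hc (R.par w')
      · rw [ls w' hw', if_pos c2] at hl
        rw [Function.iterate_succ_apply]
        exact ih w (R.par w') (by have := R.h_par w' hw'; omega) hl
      · rw [ls w' hw', if_neg c2] at hl
        have h3 := lmem w
        rw [hl] at h3
        have := R.h_le h3
        omega
  refine ⟨lab, ?_, ?_⟩
  · intro w w' hl
    rcases le_total (R.h w) (R.h w') with hh | hh
    · left
      exact R.mem_ancs.2 ⟨_, comp (R.h w' - R.h w) w w' (by omega) hl⟩
    · right
      exact R.mem_ancs.2 ⟨_, comp (R.h w - R.h w') w' w (by omega) hl.symm⟩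
  · have key : ∀ v, 2 ^ ((R.ancs v).image lab).card * R.size v ≤ 2 * Fintype.card V := by
      intro v
      refine R.induct (P := fun v => 2 ^ ((R.ancs v).image lab).card * R.size v ≤
        2 * Fintype.card V) ?_ ?_ v
      · rw [R.ancs_root, Finset.image_singleton, Finset.card_singleton]
        have := R.size_le R.root
        omega
      · intro v hv ih
        rw [R.ancs_step v, Finset.image_insert]
        by_cases c : v = hc (R.par v)
        · have : lab v ∈ (R.ancs (R.par v)).image lab := by
            rw [ls v hv, if_pos c]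
            exact Finset.mem_image_of_mem _ (R.self_mem _)
          rw [Finset.insert_eq_of_mem this]
          exact (Nat.mul_le_mul_left _ (R.size_par v)).trans ih
        · obtain ⟨g1, g2, g3⟩ := hhc (R.par v) v hv rfl
          have h2 := R.sibling_size hv g1 c g2.symm
          have h4 : 2 * R.size v ≤ R.size (R.par v) := by omega
          have h5 : (insert (lab v) ((R.ancs (R.par v)).image lab)).card ≤
              ((R.ancs (R.par v)).image lab).card + 1 := Finset.card_insert_le _ _
          calc 2 ^ (insert (lab v) ((R.ancs (R.par v)).image lab)).card * R.size v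
              ≤ 2 ^ (((R.ancs (R.par v)).image lab).card + 1) * R.size v :=
                Nat.mul_le_mul_right _ (Nat.pow_le_pow_right (by norm_num) h5)
            _ = 2 ^ (((R.ancs (R.par v)).image lab).card) * (2 * R.size v) := by
                rw [pow_succ]; ring
            _ ≤ 2 ^ (((R.ancs (R.par v)).image lab).card) * R.size (R.par v) :=
                Nat.mul_le_mul_left _ h4
            _ ≤ _ := ih
    intro v
    have h1 := key v
    have h2 := R.size_pos v
    calc 2 ^ ((R.ancs v).image lab).card = 2 ^ ((R.ancs v).image lab).card * 1 := (mul_one _).symm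
      _ ≤ 2 ^ ((R.ancs v).image lab).card * R.size v := Nat.mul_le_mul_left _ h2
      _ ≤ _ := h1

end RT

end R122PT
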